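import Mathlib

/-!
# The analytic core: moments of the potential and the angular decay
-/

set_option backward.isDefEq.respectTransparency.types false
set_option maxHeartbeats 4000000
set_option synthInstance.maxHeartbeats 400000

open scoped Topology ComplexConjugate
open MeasureTheory Set

noncomputable section

namespace Pool.Agent.Helper206.Berg

/-- The potential in the logarithmic coordinate `ρ = log |z|²`. -/
def uR (e ρ : ℝ) : ℝ := Real.log (1 + Real.exp ρ) + e * Real.exp (-Real.exp (-ρ))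

/-- The derivative of `uR`. -/
def u1R (e ρ : ℝ) : ℝ :=
  1 / (1 + Real.exp (-ρ)) + e * (Real.exp (-ρ) * Real.exp (-Real.exp (-ρ)))

/-- The potential, continued analytically to a strip. -/
def U (e : ℝ) (ρ : ℂ) : ℂ :=
  Complex.log (1 + Complex.exp ρ) + e * Complex.exp (-Complex.exp (-ρ))

/-- The derivative of `U`. -/
def U1 (e : ℝ) (ρ : ℂ) : ℂ :=
  1 / (1 + Complex.exp (-ρ)) + e * (Complex.exp (-ρ) * Complex.exp (-Complex.exp (-ρ)))

/-- The second derivative of `U`. -/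
def U2 (e : ℝ) (ρ : ℂ) : ℂ :=
  Complex.exp (-ρ) / (1 + Complex.exp (-ρ)) ^ 2 +
    e * ((Complex.exp (-ρ) ^ 2 - Complex.exp (-ρ)) * Complex.exp (-Complex.exp (-ρ)))

/-- The weight `e^{-a} / (1 + e^{-a})²`. -/
def wt (a : ℝ) : ℝ := Real.exp (-a) / (1 + Real.exp (-a)) ^ 2

theorem U_ofReal (e ρ : ℝ) : U e (ρ : ℂ) = (uR e ρ : ℂ) := by
  unfold U uR
  have h : (0 : ℝ) ≤ 1 + Real.exp ρ := by positivity
  have h1 : Complex.log (1 + Complex.exp ρ) = ((Real.log (1 + Real.exp ρ) : ℝ) : ℂ) := by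
    rw [Complex.ofReal_log h]
    push_cast
    rfl
  rw [h1]
  push_cast
  rfl

theorem U1_ofReal (e ρ : ℝ) : U1 e (ρ : ℂ) = (u1R e ρ : ℂ) := by
  unfold U1 u1R
  push_cast
  rfl

theorem exp_re_pos' {ρ : ℂ} (h : |ρ.im| < Real.pi / 2) : 0 < (Complex.exp ρ).re := by
  rw [Complex.exp_re]
  have h1 := abs_lt.1 h
  exact mul_pos (Real.exp_pos _) (Real.cos_pos_of_mem_Ioo ⟨by linarith, by linarith⟩)

theorem one_add_exp_re_pos' {ρ : ℂ} (h : |ρ.im| < Real.pi / 2) : 0 < (1 + Complex.exp ρ).re := by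
  rw [Complex.add_re, Complex.one_re]
  have := exp_re_pos' h
  linarith

theorem one_add_exp_ne' {ρ : ℂ} (h : |ρ.im| < Real.pi / 2) : 1 + Complex.exp ρ ≠ 0 := by
  intro h0
  have := one_add_exp_re_pos' h
  rw [h0] at this
  simp at this

theorem hasDerivAt_expneg (ρ : ℂ) :
    HasDerivAt (fun z : ℂ => Complex.exp (-z)) (-Complex.exp (-ρ)) ρ := by
  have h := (hasDerivAt_neg ρ).cexp
  simpa using h

theorem hasDerivAt_expexp (ρ : ℂ) :
    HasDerivAt (fun z : ℂ => Complex.exp (-Complex.exp (-z)))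
      (Complex.exp (-ρ) * Complex.exp (-Complex.exp (-ρ))) ρ := by
  have h := (hasDerivAt_expneg ρ).neg.cexp
  refine h.congr_deriv ?_
  simp only [Pi.neg_apply]
  ring

theorem hasDerivAt_U (e : ℝ) {ρ : ℂ} (h : |ρ.im| < Real.pi / 2) :
    HasDerivAt (U e) (U1 e ρ) ρ := by
  have h0 : 1 + Complex.exp ρ ≠ 0 := one_add_exp_ne' h
  have hs : 1 + Complex.exp ρ ∈ Complex.slitPlane := Or.inl (one_add_exp_re_pos' h)
  have h1 : HasDerivAt (fun z : ℂ => 1 + Complex.exp z) (Complex.exp ρ) ρ :=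
    (Complex.hasDerivAt_exp ρ).const_add 1
  have h2 := h1.clog hs
  have h3 := (hasDerivAt_expexp ρ).const_mul (e : ℂ)
  have h4 := h2.add h3
  refine h4.congr_deriv ?_
  unfold U1
  congr 1
  have h5 : 1 + Complex.exp (-ρ) ≠ 0 := by
    refine one_add_exp_ne' ?_
    rwa [Complex.neg_im, abs_neg]
  rw [div_eq_div_iff h0 h5, mul_add, ← Complex.exp_add]
  simp
  ring

theorem hasDerivAt_U1 (e : ℝ) {ρ : ℂ} (h : |ρ.im| < Real.pi / 2) :
    HasDerivAt (U1 e) (U2 e ρ) ρ := by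
  have h5 : 1 + Complex.exp (-ρ) ≠ 0 := by
    refine one_add_exp_ne' ?_
    rwa [Complex.neg_im, abs_neg]
  have h1 : HasDerivAt (fun z : ℂ => 1 + Complex.exp (-z)) (-Complex.exp (-ρ)) ρ :=
    (hasDerivAt_expneg ρ).const_add 1
  have h2 := (hasDerivAt_const ρ (1 : ℂ)).div h1 h5
  have h3 := ((hasDerivAt_expneg ρ).mul (hasDerivAt_expexp ρ)).const_mul (e : ℂ)
  have h4 := h2.add h3
  refine h4.congr_deriv ?_
  unfold U2
  congr 1
  · ring
  · ring

theorem hasDerivAt_uR (e ρ : ℝ) : HasDerivAt (uR e) (u1R e ρ) ρ := by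
  have h0 : 1 + Real.exp ρ ≠ 0 := by positivity
  have h5 : 1 + Real.exp (-ρ) ≠ 0 := by positivity
  have h1 : HasDerivAt (fun z : ℝ => 1 + Real.exp z) (Real.exp ρ) ρ :=
    (Real.hasDerivAt_exp ρ).const_add 1
  have h2 := h1.log h0
  have h6 : HasDerivAt (fun z : ℝ => Real.exp (-z)) (-Real.exp (-ρ)) ρ := by
    have h := (hasDerivAt_neg ρ).exp
    simpa using h
  have h3 := (h6.neg.exp).const_mul e
  have h4 := h2.add h3
  refine h4.congr_deriv ?_
  unfold u1R
  congr 1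
  · rw [div_eq_div_iff h0 h5, mul_add, ← Real.exp_add]
    simp
    ring
  · simp only [Pi.neg_apply]
    ring

theorem T1_form (p c s : ℝ) (hp : 0 < p) (hc : 0 < c) (hcs : s ^ 2 = 1 - c ^ 2) (q : ℂ)
    (hre : q.re = p * c) (him : q.im = -(p * s)) :
    (q / (1 + q) ^ 2).re = p * (2 * p + (p ^ 2 + 1) * c) / (p ^ 2 + 1 + 2 * p * c) ^ 2 ∧
    (q / (1 + q) ^ 2).im = p * (p ^ 2 - 1) * s / (p ^ 2 + 1 + 2 * p * c) ^ 2 := by
  have hN : 0 < p ^ 2 + 1 + 2 * p * c := by positivity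
  have hq1 : (1 + q) ≠ 0 := by
    intro h
    have := congrArg Complex.re h
    rw [Complex.add_re, Complex.one_re, hre, Complex.zero_re] at this
    have : 0 < p * c := by positivity
    linarith
  have hsqre : ((1 + q) ^ 2).re = (1 + p * c) ^ 2 - p ^ 2 * s ^ 2 := by
    rw [sq, Complex.mul_re, Complex.add_re, Complex.add_im, Complex.one_re, Complex.one_im,
      hre, him]
    ring
  have hsqim : ((1 + q) ^ 2).im = -(2 * (1 + p * c) * (p * s)) := by
    rw [sq, Complex.mul_im, Complex.add_re, Complex.add_im, Complex.one_re, Complex.one_im,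
      hre, him]
    ring
  have key : q / (1 + q) ^ 2 = (⟨p * (2 * p + (p ^ 2 + 1) * c) / (p ^ 2 + 1 + 2 * p * c) ^ 2,
      p * (p ^ 2 - 1) * s / (p ^ 2 + 1 + 2 * p * c) ^ 2⟩ : ℂ) := by
    rw [div_eq_iff (pow_ne_zero 2 hq1)]
    apply Complex.ext
    · rw [Complex.mul_re, hsqre, hsqim, hre]
      show p * c = p * (2 * p + (p ^ 2 + 1) * c) / (p ^ 2 + 1 + 2 * p * c) ^ 2
        * ((1 + p * c) ^ 2 - p ^ 2 * s ^ 2)
        - p * (p ^ 2 - 1) * s / (p ^ 2 + 1 + 2 * p * c) ^ 2 * (-(2 * (1 + p * c) * (p * s)))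
      have e1 : p * (2 * p + (p ^ 2 + 1) * c) / (p ^ 2 + 1 + 2 * p * c) ^ 2
        * ((1 + p * c) ^ 2 - p ^ 2 * s ^ 2)
        - p * (p ^ 2 - 1) * s / (p ^ 2 + 1 + 2 * p * c) ^ 2 * (-(2 * (1 + p * c) * (p * s)))
        = (p * (2 * p + (p ^ 2 + 1) * c) * ((1 + p * c) ^ 2 - p ^ 2 * s ^ 2)
          + 2 * p ^ 2 * (p ^ 2 - 1) * (1 + p * c) * s ^ 2) / (p ^ 2 + 1 + 2 * p * c) ^ 2 := by
        ring
      rw [e1, eq_div_iff (by positivity), hcs]
      ring
    · rw [Complex.mul_im, hsqre, hsqim, him]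
      show -(p * s) = p * (2 * p + (p ^ 2 + 1) * c) / (p ^ 2 + 1 + 2 * p * c) ^ 2
        * (-(2 * (1 + p * c) * (p * s)))
        + p * (p ^ 2 - 1) * s / (p ^ 2 + 1 + 2 * p * c) ^ 2 * ((1 + p * c) ^ 2 - p ^ 2 * s ^ 2)
      have e1 : p * (2 * p + (p ^ 2 + 1) * c) / (p ^ 2 + 1 + 2 * p * c) ^ 2
        * (-(2 * (1 + p * c) * (p * s)))
        + p * (p ^ 2 - 1) * s / (p ^ 2 + 1 + 2 * p * c) ^ 2 * ((1 + p * c) ^ 2 - p ^ 2 * s ^ 2)
        = (s * (p * (2 * p + (p ^ 2 + 1) * c) * (-(2 * (1 + p * c) * p))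
          + p * (p ^ 2 - 1) * ((1 + p * c) ^ 2 - p ^ 2 * s ^ 2))) / (p ^ 2 + 1 + 2 * p * c) ^ 2 := by
        ring
      rw [e1, eq_div_iff (by positivity), hcs]
      ring
  rw [key]
  exact ⟨rfl, rfl⟩

theorem exp_bd (p c : ℝ) (hp : 0 < p) (hc : 995 / 1000 ≤ c) :
    (1 + p) ^ 4 * Real.exp (-(p * c)) ≤ 391 := by
  have h1 : 1 + p ≤ (1000 / 225) * (225 / 1000 * p + 1) := by linarith
  have h2 : 225 / 1000 * p + 1 ≤ Real.exp (225 / 1000 * p) := Real.add_one_le_exp _
  have h3 : (1 + p) ^ 4 ≤ ((1000 / 225) * Real.exp (225 / 1000 * p)) ^ 4 := by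
    apply pow_le_pow_left₀ (by positivity)
    linarith
  have h4 : ((1000 / 225) * Real.exp (225 / 1000 * p)) ^ 4
      = (1000 / 225) ^ 4 * Real.exp (9 / 10 * p) := by
    rw [mul_pow, ← Real.exp_nat_mul]
    congr 2
    push_cast; ring
  have h5 : Real.exp (9 / 10 * p) * Real.exp (-(p * c)) ≤ 1 := by
    rw [← Real.exp_add]
    apply Real.exp_le_one_iff.2
    nlinarith
  have h6 : 0 < Real.exp (-(p * c)) := Real.exp_pos _
  calc (1 + p) ^ 4 * Real.exp (-(p * c))
      ≤ ((1000 / 225) ^ 4 * Real.exp (9 / 10 * p)) * Real.exp (-(p * c)) := by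
        rw [← h4]; exact mul_le_mul_of_nonneg_right h3 h6.le
    _ = (1000 / 225) ^ 4 * (Real.exp (9 / 10 * p) * Real.exp (-(p * c))) := by ring
    _ ≤ (1000 / 225) ^ 4 * 1 := mul_le_mul_of_nonneg_left h5 (by norm_num)
    _ ≤ 391 := by norm_num

theorem U2_core {e : ℝ} (he0 : 0 ≤ e) (he1 : e ≤ 1 / 1000) {ρ : ℂ} (h : |ρ.im| ≤ 1 / 10) :
    (6 / 10) * wt ρ.re ≤ (U2 e ρ).re ∧ |(U2 e ρ).im| ≤ (16 / 10) * |ρ.im| * wt ρ.re ∧
    ‖U2 e ρ‖ ≤ 1 ∧ 0 < wt ρ.re := by
  set p := Real.exp (-ρ.re) with hpdef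
  set c := Real.cos ρ.im with hcdef
  set s := Real.sin ρ.im with hsdef
  have hp : 0 < p := Real.exp_pos _
  have hb2 : ρ.im ^ 2 ≤ 1 / 100 := by
    have := sq_abs ρ.im
    nlinarith [abs_nonneg ρ.im]
  have hc1 : 995 / 1000 ≤ c := by
    have := Real.one_sub_sq_div_two_le_cos (x := ρ.im)
    linarith
  have hc2 : c ≤ 1 := Real.cos_le_one _
  have hc0 : 0 < c := by linarith
  have hcs : s ^ 2 = 1 - c ^ 2 := by
    have := Real.sin_sq_add_cos_sq ρ.im
    linarith
  have hsb : |s| ≤ |ρ.im| := Real.abs_sin_le_abs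
  set q := Complex.exp (-ρ) with hqdef
  have hre : q.re = p * c := by
    rw [hqdef, Complex.exp_re, Complex.neg_re, Complex.neg_im, Real.cos_neg]
  have him : q.im = -(p * s) := by
    rw [hqdef, Complex.exp_im, Complex.neg_re, Complex.neg_im, Real.sin_neg]; ring
  obtain ⟨hT1r, hT1i⟩ := T1_form p c s hp hc0 hcs q hre him
  set T1 := q / (1 + q) ^ 2 with hT1
  have hwt : wt ρ.re = p / (1 + p) ^ 2 := rfl
  have hwt0 : 0 < wt ρ.re := by rw [hwt]; positivity
  set N := p ^ 2 + 1 + 2 * p * c with hN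
  have hN0 : 0 < N := by positivity
  have hNle : N ≤ (1 + p) ^ 2 := by
    have : p * c ≤ p := by nlinarith
    rw [hN]; nlinarith
  have hNge : c * (1 + p) ^ 2 ≤ N := by
    rw [hN]
    nlinarith [sq_nonneg p]
  set E := Real.exp (-(p * c)) with hE
  have hE0 : 0 < E := Real.exp_pos _
  have hEb : (1 + p) ^ 4 * E ≤ 391 := exp_bd p c hp hc1
  -- T1 real
  have hR1 : c * wt ρ.re ≤ T1.re := by
    rw [hT1r, hwt, ← mul_div_assoc, div_le_div_iff₀ (by positivity) (by positivity)]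
    have h1 : c * (1 + p) ^ 2 ≤ 2 * p + (p ^ 2 + 1) * c := by nlinarith
    have h2 : N ^ 2 ≤ (1 + p) ^ 2 * (1 + p) ^ 2 := by
      rw [sq N]; exact mul_le_mul hNle hNle hN0.le (by positivity)
    calc c * p * N ^ 2 ≤ c * p * ((1 + p) ^ 2 * (1 + p) ^ 2) :=
          mul_le_mul_of_nonneg_left h2 (by positivity)
      _ = p * (c * (1 + p) ^ 2) * (1 + p) ^ 2 := by ring
      _ ≤ p * (2 * p + (p ^ 2 + 1) * c) * (1 + p) ^ 2 := by
          apply mul_le_mul_of_nonneg_right _ (by positivity)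
          exact mul_le_mul_of_nonneg_left h1 hp.le
  -- T1 imaginary
  have hI1 : |T1.im| ≤ (102 / 100) * |s| * wt ρ.re := by
    rw [hT1i, hwt, abs_div, abs_mul, abs_mul, abs_of_pos hp, abs_of_pos (by positivity : 0 < N ^ 2),
      ← mul_div_assoc, div_le_div_iff₀ (by positivity) (by positivity)]
    have h1 : |p ^ 2 - 1| ≤ (1 + p) ^ 2 := by
      rw [abs_le]; constructor <;> nlinarith
    have h2 : (1 + p) ^ 2 * (1 + p) ^ 2 ≤ (102 / 100) * N ^ 2 := by
      have h3 : (c * (1 + p) ^ 2) ^ 2 ≤ N ^ 2 := pow_le_pow_left₀ (by positivity) hNge 2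
      have h4 : (98 / 100 : ℝ) * 1 ≤ c ^ 2 * 1 := by nlinarith
      have h5 : (100 / 102 : ℝ) ≤ c ^ 2 := by nlinarith
      have h6 : 0 ≤ (1 + p) ^ 2 * (1 + p) ^ 2 := by positivity
      have h7 : (c * (1 + p) ^ 2) ^ 2 = c ^ 2 * ((1 + p) ^ 2 * (1 + p) ^ 2) := by ring
      rw [h7] at h3
      nlinarith
    calc p * |p ^ 2 - 1| * |s| * (1 + p) ^ 2
        = p * |s| * (|p ^ 2 - 1| * (1 + p) ^ 2) := by ring
      _ ≤ p * |s| * ((1 + p) ^ 2 * (1 + p) ^ 2) := by
          apply mul_le_mul_of_nonneg_left _ (by positivity)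
          exact mul_le_mul_of_nonneg_right h1 (by positivity)
      _ ≤ p * |s| * ((102 / 100) * N ^ 2) := mul_le_mul_of_nonneg_left h2 (by positivity)
      _ = 102 / 100 * |s| * p * N ^ 2 := by ring
  -- norm of q
  have hqn : ‖q‖ = p := by rw [hqdef, Complex.norm_exp, Complex.neg_re]
  have hn1 : ‖T1‖ ≤ 1 / 2 := by
    rw [hT1, norm_div, norm_pow, hqn]
    have h1 : ‖1 + q‖ ^ 2 = N := by
      rw [Complex.sq_norm, Complex.normSq_apply, Complex.add_re, Complex.add_im, Complex.one_re,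
        Complex.one_im, hre, him, hN]
      have : (0 + -(p * s)) * (0 + -(p * s)) = p ^ 2 * s ^ 2 := by ring
      rw [this, hcs]; ring
    rw [h1, div_le_div_iff₀ hN0 (by norm_num)]
    have : 0 ≤ p * c := by positivity
    rw [hN]
    nlinarith [sq_nonneg (p - 1)]
  -- T2
  set X := (q ^ 2 - q) * Complex.exp (-q) with hX
  have hexpn : ‖Complex.exp (-q)‖ = E := by
    rw [Complex.norm_exp, Complex.neg_re, hre]
  have hX1 : ‖X‖ ≤ (p ^ 2 + p) * E := by
    rw [hX, norm_mul, hexpn]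
    apply mul_le_mul_of_nonneg_right _ hE0.le
    calc ‖q ^ 2 - q‖ ≤ ‖q ^ 2‖ + ‖q‖ := norm_sub_le _ _
      _ = p ^ 2 + p := by rw [norm_pow, hqn]
  have hX2 : e * ‖X‖ ≤ (391 / 1000) * wt ρ.re := by
    have h1 : (p ^ 2 + p) * E ≤ 391 * wt ρ.re := by
      rw [hwt, ← mul_div_assoc, le_div_iff₀ (by positivity)]
      have h2 : (1 + p) ^ 3 * E ≤ 391 := by
        have h3 : (1 + p) ^ 3 ≤ (1 + p) ^ 4 := pow_le_pow_right₀ (by linarith) (by norm_num)
        nlinarith
      calc (p ^ 2 + p) * E * (1 + p) ^ 2 = p * ((1 + p) ^ 3 * E) := by ring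
        _ ≤ p * 391 := mul_le_mul_of_nonneg_left h2 hp.le
        _ = 391 * p := by ring
    have h2 : e * ‖X‖ ≤ (1 / 1000) * (391 * wt ρ.re) :=
      mul_le_mul he1 (le_trans hX1 h1) (norm_nonneg _) (by norm_num)
    linarith
  have hX3 : |X.im| ≤ (5 / 4) * |s| * (p * (1 + p) ^ 2 * E) := by
    have hq2re : (q ^ 2 - q).re = p ^ 2 * c ^ 2 - p ^ 2 * s ^ 2 - p * c := by
      rw [Complex.sub_re, sq, Complex.mul_re, hre, him]; ring
    have hq2im : (q ^ 2 - q).im = -(s * (2 * p ^ 2 * c - p)) := by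
      rw [Complex.sub_im, sq, Complex.mul_im, hre, him]; ring
    have hEim : |(Complex.exp (-q)).im| ≤ E * (p * |s|) := by
      rw [Complex.exp_im, Complex.neg_re, Complex.neg_im, hre, him, neg_neg, abs_mul,
        abs_of_pos hE0]
      apply mul_le_mul_of_nonneg_left _ hE0.le
      have : |Real.sin (p * s)| ≤ |p * s| := Real.abs_sin_le_abs
      rwa [abs_mul, abs_of_pos hp] at this
    have hEre : |(Complex.exp (-q)).re| ≤ E := by
      rw [← hexpn]; exact Complex.abs_re_le_norm _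
    have hre2 : |(q ^ 2 - q).re| ≤ p ^ 2 + p := by
      refine le_trans (Complex.abs_re_le_norm _) ?_
      calc ‖q ^ 2 - q‖ ≤ ‖q ^ 2‖ + ‖q‖ := norm_sub_le _ _
        _ = p ^ 2 + p := by rw [norm_pow, hqn]
    have him2 : |(q ^ 2 - q).im| ≤ |s| * (2 * p ^ 2 + p) := by
      rw [hq2im, abs_neg, abs_mul]
      apply mul_le_mul_of_nonneg_left _ (abs_nonneg _)
      rw [abs_le]
      have h1 : p ^ 2 * c ≤ p ^ 2 := by nlinarith [sq_nonneg p]
      have h2 : 0 ≤ p ^ 2 * c := by positivity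
      constructor <;> nlinarith
    rw [hX, Complex.mul_im]
    calc |(q ^ 2 - q).re * (Complex.exp (-q)).im + (q ^ 2 - q).im * (Complex.exp (-q)).re|
        ≤ |(q ^ 2 - q).re| * |(Complex.exp (-q)).im| + |(q ^ 2 - q).im| * |(Complex.exp (-q)).re| := by
          rw [← abs_mul, ← abs_mul]; exact abs_add_le _ _
      _ ≤ (p ^ 2 + p) * (E * (p * |s|)) + |s| * (2 * p ^ 2 + p) * E := by
          apply add_le_add
          · exact mul_le_mul hre2 hEim (abs_nonneg _) (by positivity)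
          · exact mul_le_mul him2 hEre (abs_nonneg _) (by positivity)
      _ = |s| * E * p * (p ^ 2 + 3 * p + 1) := by ring
      _ ≤ |s| * E * p * ((5 / 4) * (1 + p) ^ 2) := by
          apply mul_le_mul_of_nonneg_left _ (by positivity)
          nlinarith [sq_nonneg (p - 1)]
      _ = _ := by ring
  have hX4 : e * |X.im| ≤ (48 / 100) * |s| * wt ρ.re + (1 / 100) * |s| * wt ρ.re := by
    have h1 : p * (1 + p) ^ 2 * E ≤ 391 * wt ρ.re := by
      rw [hwt, ← mul_div_assoc, le_div_iff₀ (by positivity)]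
      calc p * (1 + p) ^ 2 * E * (1 + p) ^ 2 = p * ((1 + p) ^ 4 * E) := by ring
        _ ≤ p * 391 := mul_le_mul_of_nonneg_left hEb hp.le
        _ = 391 * p := by ring
    have h2 : |X.im| ≤ (5 / 4) * |s| * (391 * wt ρ.re) :=
      le_trans hX3 (mul_le_mul_of_nonneg_left h1 (by positivity))
    have h3 : e * |X.im| ≤ (1 / 1000) * ((5 / 4) * |s| * (391 * wt ρ.re)) :=
      mul_le_mul he1 h2 (abs_nonneg _) (by norm_num)
    have h4 : 0 ≤ |s| * wt ρ.re := by positivity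
    nlinarith
  have hU : U2 e ρ = T1 + e * X := by
    rw [hT1, hX, hqdef]; rfl
  have hUre : (U2 e ρ).re = T1.re + e * X.re := by
    rw [hU, Complex.add_re, Complex.re_ofReal_mul]
  have hUim : (U2 e ρ).im = T1.im + e * X.im := by
    rw [hU, Complex.add_im, Complex.im_ofReal_mul]
  have hXre : |e * X.re| ≤ (391 / 1000) * wt ρ.re := by
    rw [abs_mul, abs_of_nonneg he0]
    exact le_trans (mul_le_mul_of_nonneg_left (Complex.abs_re_le_norm _) he0) hX2
  refine ⟨?_, ?_, ?_, hwt0⟩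
  · rw [hUre]
    have := (abs_le.1 hXre).1
    nlinarith
  · rw [hUim]
    have h1 : |e * X.im| = e * |X.im| := by rw [abs_mul, abs_of_nonneg he0]
    have h2 := abs_add_le T1.im (e * X.im)
    rw [h1] at h2
    have h3 : |s| * wt ρ.re ≤ |ρ.im| * wt ρ.re := mul_le_mul_of_nonneg_right hsb hwt0.le
    have h4 : 0 ≤ |s| * wt ρ.re := by positivity
    nlinarith
  · rw [hU]
    have h1 : ‖T1 + (e : ℂ) * X‖ ≤ ‖T1‖ + e * ‖X‖ := by
      refine le_trans (norm_add_le _ _) ?_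
      rw [norm_mul, Complex.norm_real, Real.norm_of_nonneg he0]
    have h2 : wt ρ.re ≤ 1 := by
      rw [hwt, div_le_one (by positivity)]; nlinarith
    linarith

/-- Key inequalities on the strip `|Im ρ| ≤ 1/10`. -/
theorem U2_re_ge {e : ℝ} (he0 : 0 ≤ e) (he1 : e ≤ 1 / 1000) {ρ : ℂ} (h : |ρ.im| ≤ 1 / 10) :
    wt ρ.re / 2 ≤ (U2 e ρ).re := by
  obtain ⟨h1, _, _, h4⟩ := U2_core he0 he1 h
  linarith

theorem U2_im_le {e : ℝ} (he0 : 0 ≤ e) (he1 : e ≤ 1 / 1000) {ρ : ℂ} (h : |ρ.im| ≤ 1 / 10) :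
    |(U2 e ρ).im| ≤ 4 * |ρ.im| * (U2 e ρ).re := by
  obtain ⟨h1, h2, _, h4⟩ := U2_core he0 he1 h
  have h5 : |ρ.im| * ((6 / 10) * wt ρ.re) ≤ |ρ.im| * (U2 e ρ).re :=
    mul_le_mul_of_nonneg_left h1 (abs_nonneg _)
  have h6 : 0 ≤ |ρ.im| * wt ρ.re := mul_nonneg (abs_nonneg _) h4.le
  nlinarith

theorem U2_norm_le {e : ℝ} (he0 : 0 ≤ e) (he1 : e ≤ 1 / 1000) {ρ : ℂ} (h : |ρ.im| ≤ 1 / 10) :
    ‖U2 e ρ‖ ≤ 1 := by
  obtain ⟨_, _, h3, _⟩ := U2_core he0 he1 h
  exact h3

theorem u1R_ge {e : ℝ} (he0 : 0 ≤ e) (ρ : ℝ) : 1 / (1 + Real.exp (-ρ)) ≤ u1R e ρ := by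
  unfold u1R
  have : 0 ≤ e * (Real.exp (-ρ) * Real.exp (-Real.exp (-ρ))) := by positivity
  linarith

theorem u1R_le {e : ℝ} (he0 : 0 ≤ e) (he1 : e ≤ 1 / 1000) (ρ : ℝ) :
    u1R e ρ ≤ 1 - Real.exp (-ρ) / (2 * (1 + Real.exp (-ρ))) := by
  unfold u1R
  have hq := Real.exp_pos (-ρ)
  generalize Real.exp (-ρ) = q at *
  have h1 : Real.exp (-q) ≤ 1 / (1 + q) := by
    rw [Real.exp_neg, ← one_div]
    apply one_div_le_one_div_of_le (by linarith)
    linarith [Real.add_one_le_exp q]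
  have h2 : e * (q * Real.exp (-q)) ≤ 1 / 1000 * (q * (1 / (1 + q))) := by gcongr
  have h3 : 1 / (1 + q) + 1 / 1000 * (q * (1 / (1 + q))) ≤ 1 - q / (2 * (1 + q)) := by
    have e1 : 1 - q / (2 * (1 + q)) - (1 / (1 + q) + 1 / 1000 * (q * (1 / (1 + q)))) =
        (q * (499 / 1000)) / (1 + q) := by
      field_simp
      ring
    have : 0 ≤ (q * (499 / 1000)) / (1 + q) := by positivity
    linarith
  linarith

theorem uR_differentiable (e : ℝ) : Differentiable ℝ (uR e) :=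
  fun x => (hasDerivAt_uR e x).differentiableAt

theorem deriv_uR (e : ℝ) : deriv (uR e) = u1R e := funext fun x => (hasDerivAt_uR e x).deriv

theorem u1R_nonneg {e : ℝ} (he0 : 0 ≤ e) (ρ : ℝ) : 0 ≤ u1R e ρ :=
  le_trans (by positivity) (u1R_ge he0 ρ)

theorem uR_monotone {e : ℝ} (he0 : 0 ≤ e) : Monotone (uR e) := by
  refine monotone_of_deriv_nonneg (uR_differentiable e) fun x => ?_
  rw [deriv_uR]
  exact u1R_nonneg he0 x

theorem sub_uR_monotone {e : ℝ} (he0 : 0 ≤ e) (he1 : e ≤ 1 / 1000) :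
    Monotone (fun ρ => ρ - uR e ρ) := by
  have hd : ∀ x, HasDerivAt (fun ρ => ρ - uR e ρ) (1 - u1R e x) x :=
    fun x => (hasDerivAt_id x).sub (hasDerivAt_uR e x)
  refine monotone_of_deriv_nonneg (fun x => (hd x).differentiableAt) fun x => ?_
  rw [(hd x).deriv]
  have h1 := u1R_le he0 he1 x
  have h2 : 0 ≤ Real.exp (-x) / (2 * (1 + Real.exp (-x))) := by positivity
  linarith

theorem hasDerivAt_u1R (e ρ : ℝ) : HasDerivAt (u1R e) (U2 e ρ).re ρ := by
  have h := (hasDerivAt_U1 e (ρ := (ρ : ℂ)) (by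
    rw [Complex.ofReal_im, abs_zero]
    have := Real.pi_pos
    linarith)).real_of_complex
  have e1 : (fun x : ℝ => (U1 e (x : ℂ)).re) = u1R e := by
    funext x
    rw [U1_ofReal, Complex.ofReal_re]
  rwa [e1] at h

theorem U2_re_ge' {e : ℝ} (he0 : 0 ≤ e) (he1 : e ≤ 1 / 1000) (ρ : ℝ) :
    wt ρ / 2 ≤ (U2 e ρ).re := by
  have h := U2_re_ge he0 he1 (ρ := (ρ : ℂ)) (by
    rw [Complex.ofReal_im, abs_zero]
    norm_num)
  rwa [Complex.ofReal_re] at h

theorem wt_nonneg (a : ℝ) : 0 ≤ wt a := by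
  unfold wt
  positivity

theorem uR_convexOn {e : ℝ} (he0 : 0 ≤ e) (he1 : e ≤ 1 / 1000) : ConvexOn ℝ univ (uR e) := by
  refine Monotone.convexOn_univ_of_deriv (uR_differentiable e) ?_
  rw [deriv_uR]
  refine monotone_of_deriv_nonneg (fun x => (hasDerivAt_u1R e x).differentiableAt) fun x => ?_
  rw [(hasDerivAt_u1R e x).deriv]
  have := U2_re_ge' he0 he1 x
  have := wt_nonneg x
  linarith

theorem hasDerivAt_lg (x : ℝ) :
    HasDerivAt (fun ρ : ℝ => Real.log (1 + Real.exp ρ)) (1 / (1 + Real.exp (-x))) x := by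
  have h1 : HasDerivAt (fun ρ : ℝ => 1 + Real.exp ρ) (Real.exp x) x :=
    (Real.hasDerivAt_exp x).const_add 1
  have h2 := h1.log (by positivity)
  convert h2 using 1
  rw [Real.exp_neg]
  have := Real.exp_pos x
  field_simp
  ring

theorem hasDerivAt_lg1 (x : ℝ) :
    HasDerivAt (fun ρ : ℝ => 1 / (1 + Real.exp (-ρ))) (wt x) x := by
  have h0 : HasDerivAt (fun ρ : ℝ => Real.exp (-ρ)) (Real.exp (-x) * (-1)) x :=
    (hasDerivAt_neg x).exp
  have h1 : HasDerivAt (fun ρ : ℝ => 1 + Real.exp (-ρ)) (Real.exp (-x) * (-1)) x :=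
    h0.const_add 1
  have h2 := h1.inv (by positivity)
  have e1 : (fun ρ : ℝ => 1 / (1 + Real.exp (-ρ))) = (fun ρ : ℝ => 1 + Real.exp (-ρ))⁻¹ := by
    funext y
    simp
  rw [e1]
  have e2 : wt x = -(Real.exp (-x) * (-1)) / (1 + Real.exp (-x)) ^ 2 := by
    unfold wt
    ring
  rw [e2]
  exact h2

theorem uR_sub_half_convexOn {e : ℝ} (he0 : 0 ≤ e) (he1 : e ≤ 1 / 1000) :
    ConvexOn ℝ univ (fun ρ => uR e ρ - 1 / 2 * Real.log (1 + Real.exp ρ)) := by
  have hd : ∀ x, HasDerivAt (fun ρ => uR e ρ - 1 / 2 * Real.log (1 + Real.exp ρ))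
      (u1R e x - 1 / 2 * (1 / (1 + Real.exp (-x)))) x :=
    fun x => (hasDerivAt_uR e x).sub ((hasDerivAt_lg x).const_mul (1 / 2))
  have hd2 : ∀ x : ℝ, HasDerivAt (fun x => u1R e x - 1 / 2 * (1 / (1 + Real.exp (-x))))
      ((U2 e x).re - 1 / 2 * wt x) x :=
    fun x => (hasDerivAt_u1R e x).sub ((hasDerivAt_lg1 x).const_mul (1 / 2))
  refine Monotone.convexOn_univ_of_deriv (fun x => (hd x).differentiableAt) ?_
  have e1 : deriv (fun ρ => uR e ρ - 1 / 2 * Real.log (1 + Real.exp ρ)) =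
      fun x => u1R e x - 1 / 2 * (1 / (1 + Real.exp (-x))) := funext fun x => (hd x).deriv
  rw [e1]
  refine monotone_of_deriv_nonneg (fun x => (hd2 x).differentiableAt) fun x => ?_
  rw [(hd2 x).deriv]
  have := U2_re_ge' he0 he1 x
  linarith

/-- Growth of the potential on the strip. -/
theorem U_re_ge {e : ℝ} (he0 : 0 ≤ e) (he1 : e ≤ 1 / 1000) {ρ : ℂ} (h : |ρ.im| ≤ 1 / 10) :
    max 0 ρ.re - 1 ≤ (U e ρ).re := by
  have hpi : (3 : ℝ) < Real.pi := Real.pi_gt_three
  have him := abs_le.1 h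
  have hcos : 0 < Real.cos ρ.im := Real.cos_pos_of_mem_Ioo ⟨by linarith [him.1], by linarith [him.2]⟩
  have hre : 0 < (Complex.exp ρ).re := by
    rw [Complex.exp_re]
    exact mul_pos (Real.exp_pos _) hcos
  have hnorm : ‖Complex.exp ρ‖ = Real.exp ρ.re := Complex.norm_exp ρ
  -- log part
  have h1 : 1 ≤ ‖1 + Complex.exp ρ‖ := by
    have := Complex.abs_re_le_norm (1 + Complex.exp ρ)
    have h2 : (1 + Complex.exp ρ).re = 1 + (Complex.exp ρ).re := by simp
    rw [h2] at this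
    have h3 := le_abs_self (1 + (Complex.exp ρ).re)
    linarith
  have h2 : Real.exp ρ.re ≤ ‖1 + Complex.exp ρ‖ := by
    rw [← hnorm]
    have e1 : ‖Complex.exp ρ‖ ^ 2 = (Complex.exp ρ).re ^ 2 + (Complex.exp ρ).im ^ 2 := by
      rw [← Complex.normSq_eq_norm_sq, Complex.normSq_apply]
      ring
    have e2 : ‖1 + Complex.exp ρ‖ ^ 2 = (1 + (Complex.exp ρ).re) ^ 2 + (Complex.exp ρ).im ^ 2 := by
      rw [← Complex.normSq_eq_norm_sq, Complex.normSq_apply]
      simp only [Complex.add_re, Complex.one_re, Complex.add_im, Complex.one_im, zero_add]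
      ring
    apply le_of_sq_le_sq _ (norm_nonneg _)
    rw [e1, e2]
    nlinarith [hre]
  have h3 : (Complex.log (1 + Complex.exp ρ)).re = Real.log ‖1 + Complex.exp ρ‖ := Complex.log_re _
  have h4 : max 0 ρ.re ≤ (Complex.log (1 + Complex.exp ρ)).re := by
    rw [h3]
    apply max_le
    · exact Real.log_nonneg h1
    · rw [← Real.log_exp ρ.re]
      exact Real.log_le_log (Real.exp_pos _) h2
  -- second part
  have h5 : ‖Complex.exp (-Complex.exp (-ρ))‖ ≤ 1 := by
    rw [Complex.norm_exp]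
    rw [Real.exp_le_one_iff]
    have : 0 ≤ (Complex.exp (-ρ)).re := by
      rw [Complex.exp_re]
      apply mul_nonneg (Real.exp_pos _).le
      simp only [Complex.neg_im, Real.cos_neg]
      exact hcos.le
    simpa using this
  have h6 : -1 ≤ ((e : ℂ) * Complex.exp (-Complex.exp (-ρ))).re := by
    have h7 := Complex.abs_re_le_norm ((e : ℂ) * Complex.exp (-Complex.exp (-ρ)))
    rw [norm_mul, Complex.norm_real, Real.norm_eq_abs, abs_of_nonneg he0] at h7
    have h8 : e * ‖Complex.exp (-Complex.exp (-ρ))‖ ≤ 1 := by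
      have := mul_le_mul he1 h5 (norm_nonneg _) (by norm_num : (0:ℝ) ≤ 1 / 1000)
      linarith
    have h9 := (abs_le.1 (h7.trans h8)).1
    exact h9
  unfold U
  rw [Complex.add_re]
  linarith

theorem cs_int_exp {c : ℝ} (hc : 0 < c) (C : ℝ) :
    MeasureTheory.Integrable (fun x : ℝ => C * Real.exp (-c * |x|)) := by
  apply MeasureTheory.Integrable.const_mul
  rw [← MeasureTheory.integrableOn_univ, ← Set.Iic_union_Ioi (a := (0 : ℝ)),
    MeasureTheory.integrableOn_union]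
  constructor
  · refine (integrableOn_exp_mul_Iic hc 0).congr_fun ?_ measurableSet_Iic
    intro x hx
    simp only
    rw [abs_of_nonpos hx]
    congr 1
    ring
  · refine (exp_neg_integrableOn_Ioi 0 hc).congr_fun ?_ measurableSet_Ioi
    intro x hx
    simp only
    rw [abs_of_pos hx]

theorem cs_line {F : ℂ → ℂ} {b C c : ℝ} (hc : 0 < c)
    (hF : ∀ z : ℂ, |z.im| ≤ |b| → DifferentiableAt ℂ F z)
    (hbd : ∀ z : ℂ, |z.im| ≤ |b| → ‖F z‖ ≤ C * Real.exp (-c * |z.re|)) {y : ℝ} (hy : |y| ≤ |b|) :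
    MeasureTheory.Integrable (fun x : ℝ => F (x + y * Complex.I)) := by
  have him : ∀ x : ℝ, ((x : ℂ) + y * Complex.I).im = y := by intro x; simp
  have hre : ∀ x : ℝ, ((x : ℂ) + y * Complex.I).re = x := by intro x; simp
  have hcont : Continuous fun x : ℝ => F (x + y * Complex.I) := by
    rw [continuous_iff_continuousAt]
    intro x
    have h1 : ContinuousAt F ((x : ℂ) + y * Complex.I) :=
      (hF _ (by rw [him]; exact hy)).continuousAt
    exact ContinuousAt.comp (f := fun x : ℝ => (x : ℂ) + y * Complex.I) h1 (by fun_prop)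
  refine (cs_int_exp hc C).mono' hcont.aestronglyMeasurable ?_
  filter_upwards with x
  have := hbd ((x : ℂ) + y * Complex.I) (by rw [him]; exact hy)
  rw [hre] at this
  exact this

/-- Shift of the contour of integration. -/
theorem integral_shift {F : ℂ → ℂ} {b C c : ℝ} (hc : 0 < c)
    (hF : ∀ z : ℂ, |z.im| ≤ |b| → DifferentiableAt ℂ F z)
    (hbd : ∀ z : ℂ, |z.im| ≤ |b| → ‖F z‖ ≤ C * Real.exp (-c * |z.re|)) :
    ∫ x : ℝ, F (x + b * Complex.I) = ∫ x : ℝ, F x := by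
  have hmem : ∀ y ∈ Set.uIcc 0 b, |y| ≤ |b| := by
    intro y hy
    rw [Set.mem_uIcc] at hy
    rcases hy with ⟨h1, h2⟩ | ⟨h1, h2⟩
    · rw [abs_of_nonneg h1, abs_of_nonneg (h1.trans h2)]
      exact h2
    · rw [abs_of_nonpos h2, abs_of_nonpos (h1.trans h2)]
      linarith
  have hi0 : MeasureTheory.Integrable (fun x : ℝ => F x) := by
    have := cs_line hc hF hbd (y := 0) (by rw [abs_zero]; exact abs_nonneg b)
    simpa using this
  have hib : MeasureTheory.Integrable (fun x : ℝ => F (x + b * Complex.I)) :=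
    cs_line hc hF hbd le_rfl
  have hrect : ∀ T : ℝ, (∫ x in (-T)..T, F x) - (∫ x in (-T)..T, F (x + b * Complex.I)) +
      Complex.I • (∫ y in (0 : ℝ)..b, F (T + y * Complex.I)) -
      Complex.I • (∫ y in (0 : ℝ)..b, F (-T + y * Complex.I)) = 0 := by
    intro T
    have h := Complex.integral_boundary_rect_eq_zero_of_differentiableOn F (-T : ℂ)
      (T + b * Complex.I) (by
        intro z hz
        apply (hF z _).differentiableWithinAt
        have h2 := hz.2
        simp only [Set.mem_preimage] at h2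
        have h3 : z.im ∈ Set.uIcc 0 b := by simpa using h2
        exact hmem _ h3)
    simpa using h
  have ht1 : Filter.Tendsto (fun T : ℝ => ∫ x in (-T)..T, F x) Filter.atTop
      (nhds (∫ x : ℝ, F x)) :=
    MeasureTheory.intervalIntegral_tendsto_integral hi0 Filter.tendsto_neg_atTop_atBot
      Filter.tendsto_id
  have ht2 : Filter.Tendsto (fun T : ℝ => ∫ x in (-T)..T, F (x + b * Complex.I)) Filter.atTop
      (nhds (∫ x : ℝ, F (x + b * Complex.I))) :=
    MeasureTheory.intervalIntegral_tendsto_integral hib Filter.tendsto_neg_atTop_atBot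
      Filter.tendsto_id
  have hexp : Filter.Tendsto (fun T : ℝ => (C * Real.exp (-c * |T|)) * |b - 0|) Filter.atTop
      (nhds 0) := by
    have h1 : Filter.Tendsto (fun T : ℝ => -c * |T|) Filter.atTop Filter.atBot := by
      apply Filter.Tendsto.const_mul_atTop_of_neg (by linarith)
      exact Filter.tendsto_abs_atTop_atTop
    have h2 := Real.tendsto_exp_atBot.comp h1
    have h3 := (h2.const_mul C).mul_const |b - 0|
    simpa using h3
  have hv : ∀ s : ℝ, (s = 1 ∨ s = -1) → Filter.Tendsto (fun T : ℝ =>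
      Complex.I • (∫ y in (0 : ℝ)..b, F ((s * T : ℝ) + y * Complex.I))) Filter.atTop (nhds 0) := by
    intro s hs
    rw [tendsto_zero_iff_norm_tendsto_zero]
    refine squeeze_zero (fun T => norm_nonneg _) (fun T => ?_) hexp
    rw [norm_smul, Complex.norm_I, one_mul]
    apply intervalIntegral.norm_integral_le_of_norm_le_const
    intro y hy
    have h1 := hbd (((s * T : ℝ) : ℂ) + y * Complex.I) (by
      simp only [Complex.add_im, Complex.ofReal_im, Complex.mul_im, Complex.ofReal_re,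
        Complex.I_im, mul_one, Complex.I_re, mul_zero, add_zero, zero_add]
      exact hmem y (Set.uIoc_subset_uIcc hy))
    have hre : (((s * T : ℝ) : ℂ) + y * Complex.I).re = s * T := by simp
    rw [hre, abs_mul] at h1
    have hs1 : |s| = 1 := by rcases hs with rfl | rfl <;> simp
    rw [hs1, one_mul] at h1
    exact h1
  have hv1 := hv 1 (Or.inl rfl)
  have hv2 := hv (-1) (Or.inr rfl)
  have hlim := ((ht1.sub ht2).add hv1).sub hv2
  have hz : (fun T : ℝ => (∫ x in (-T)..T, F x) - (∫ x in (-T)..T, F (x + b * Complex.I)) +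
      Complex.I • (∫ y in (0 : ℝ)..b, F ((1 * T : ℝ) + y * Complex.I)) -
      Complex.I • (∫ y in (0 : ℝ)..b, F ((-1 * T : ℝ) + y * Complex.I))) = fun _ => 0 := by
    funext T
    have := hrect T
    simpa using this
  rw [hz] at hlim
  have h0 := tendsto_nhds_unique hlim tendsto_const_nhds
  simp only [add_zero, sub_zero] at h0
  exact (sub_eq_zero.1 h0).symm

/-- A lower bound for slightly oscillating integrals. -/
theorem half_integral_le_norm {R V : ℝ → ℝ} {κ : ℝ} (hκ : 0 < κ) (hRc : Continuous R)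
    (hVc : Continuous V) (hconv : ConvexOn ℝ univ R) (hR0 : R 0 = 0) (hR : ∀ x, 0 ≤ R x)
    (hV : ∀ x, |V x| ≤ 2 / 5 * R x) (hint : Integrable (fun x => Real.exp (-κ * R x))) :
    1 / 2 * ∫ x, Real.exp (-κ * R x) ≤
      ‖∫ x : ℝ, Complex.exp (-κ * ((R x : ℂ) + V x * Complex.I))‖ := by
  have hz1 : ∀ x, (-(κ : ℂ) * ((R x : ℂ) + V x * Complex.I)).re = -κ * R x := by
    intro x; simp
  have hz2 : ∀ x, (-(κ : ℂ) * ((R x : ℂ) + V x * Complex.I)).im = -(κ * V x) := by
    intro x; simp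
  have hFc : Continuous (fun x : ℝ => Complex.exp (-κ * ((R x : ℂ) + V x * Complex.I))) := by
    fun_prop
  have hF : Integrable (fun x : ℝ => Complex.exp (-κ * ((R x : ℂ) + V x * Complex.I))) := by
    refine hint.mono' hFc.aestronglyMeasurable (ae_of_all _ fun x => ?_)
    rw [Complex.norm_exp, hz1 x]
  have hre : ∀ x, (Complex.exp (-κ * ((R x : ℂ) + V x * Complex.I))).re
      = Real.exp (-κ * R x) * Real.cos (κ * V x) := by
    intro x
    rw [Complex.exp_re, hz1 x, hz2 x, Real.cos_neg]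
  have hcomm := Complex.reCLM.integral_comp_comm hF
  simp only [Complex.reCLM_apply, hre] at hcomm
  have hle : ∫ x, Real.exp (-κ * R x) * Real.cos (κ * V x)
      ≤ ‖∫ x : ℝ, Complex.exp (-κ * ((R x : ℂ) + V x * Complex.I))‖ := by
    rw [hcomm]
    exact Complex.re_le_norm _
  refine le_trans ?_ hle
  -- the half exponent
  have hhalf : ∀ x, R (x / 2) ≤ R x / 2 := by
    intro x
    have h := hconv.2 (mem_univ x) (mem_univ 0) (show (0 : ℝ) ≤ 1 / 2 by norm_num)
      (show (0 : ℝ) ≤ 1 / 2 by norm_num) (by norm_num)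
    simp only [smul_eq_mul, mul_zero, add_zero, hR0] at h
    have h2 : (1 / 2 : ℝ) * x = x / 2 := by ring
    rw [h2] at h
    linarith
  have hI2 : Integrable (fun x => Real.exp (-κ * R (x / 2))) :=
    hint.comp_div (two_ne_zero)
  have hI2v : ∫ x, Real.exp (-κ * R (x / 2)) = 2 * ∫ x, Real.exp (-κ * R x) := by
    have h := MeasureTheory.Measure.integral_comp_div (fun x => Real.exp (-κ * R x)) 2
    rw [h, smul_eq_mul, abs_of_pos (by norm_num : (0 : ℝ) < 2)]
  have hhc : Continuous (fun x => Real.exp (-(κ * R x) / 2)) := by fun_prop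
  have hcmp : ∀ x, Real.exp (-(κ * R x) / 2) ≤ Real.exp (-κ * R (x / 2)) := by
    intro x
    apply Real.exp_le_exp.2
    have h1 := mul_le_mul_of_nonneg_left (hhalf x) hκ.le
    linarith
  have hI3 : Integrable (fun x => Real.exp (-(κ * R x) / 2)) := by
    refine hI2.mono' hhc.aestronglyMeasurable (ae_of_all _ fun x => ?_)
    rw [Real.norm_of_nonneg (Real.exp_pos _).le]
    exact hcmp x
  have hI3v : ∫ x, Real.exp (-(κ * R x) / 2) ≤ 2 * ∫ x, Real.exp (-κ * R x) := by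
    rw [← hI2v]
    exact integral_mono hI3 hI2 hcmp
  have hIc : Integrable (fun x => Real.exp (-κ * R x) * Real.cos (κ * V x)) := by
    refine hint.mono' (by fun_prop) (ae_of_all _ fun x => ?_)
    rw [norm_mul, Real.norm_of_nonneg (Real.exp_pos _).le, Real.norm_eq_abs]
    calc Real.exp (-κ * R x) * |Real.cos (κ * V x)| ≤ Real.exp (-κ * R x) * 1 := by
          gcongr
          exact Real.abs_cos_le_one _
      _ = _ := mul_one _
  have hpt : ∀ x, Real.exp (-κ * R x) - 1 / 5 * Real.exp (-(κ * R x) / 2)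
      ≤ Real.exp (-κ * R x) * Real.cos (κ * V x) := by
    intro x
    have hy0 : 0 ≤ κ * R x := mul_nonneg hκ.le (hR x)
    have hcos := Real.one_sub_sq_div_two_le_cos (x := κ * V x)
    have hVs : (κ * V x) ^ 2 ≤ 4 / 25 * (κ * R x) ^ 2 := by
      have h1 : |κ * V x| ≤ 2 / 5 * (κ * R x) := by
        rw [abs_mul, abs_of_pos hκ]
        have := mul_le_mul_of_nonneg_left (hV x) hκ.le
        linarith
      have h2 := pow_le_pow_left₀ (abs_nonneg _) h1 2
      rw [sq_abs] at h2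
      calc (κ * V x) ^ 2 ≤ (2 / 5 * (κ * R x)) ^ 2 := h2
        _ = _ := by ring
    generalize hyd : κ * R x = y at *
    have hexp : Real.exp (-κ * R x) = Real.exp (-y / 2) * Real.exp (-y / 2) := by
      rw [← Real.exp_add]
      congr 1
      rw [← hyd]
      ring
    rw [hexp]
    have hE : 0 < Real.exp (-y / 2) := Real.exp_pos _
    -- y ^ 2 ≤ 5/2 e^{y/2}
    have hkey : y ^ 2 * Real.exp (-y / 2) ≤ 5 / 2 := by
      have h1 : y / 4 ≤ Real.exp (y / 4 - 1) := by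
        have := Real.add_one_le_exp (y / 4 - 1)
        linarith
      have h2 : (y / 4) ^ 2 ≤ Real.exp (y / 4 - 1) ^ 2 := pow_le_pow_left₀ (by positivity) h1 2
      have h3 : Real.exp (y / 4 - 1) ^ 2 * Real.exp (-y / 2) * Real.exp 1 ^ 2 = 1 := by
        rw [← Real.exp_nat_mul, ← Real.exp_nat_mul, ← Real.exp_add, ← Real.exp_add]
        rw [Real.exp_eq_one_iff]
        push_cast
        ring
      have h4 : (2.7 : ℝ) < Real.exp 1 := by
        have := Real.exp_one_gt_d9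
        linarith
      have h5 : (7 : ℝ) ≤ Real.exp 1 ^ 2 := by nlinarith
      have h6 : y ^ 2 * Real.exp (-y / 2) ≤ 16 * (Real.exp (y / 4 - 1) ^ 2 * Real.exp (-y / 2)) := by
        have := mul_le_mul_of_nonneg_right h2 hE.le
        have h7 : (y / 4) ^ 2 * Real.exp (-y / 2) = 1 / 16 * (y ^ 2 * Real.exp (-y / 2)) := by ring
        linarith
      have h8 : 0 ≤ Real.exp (y / 4 - 1) ^ 2 * Real.exp (-y / 2) := by positivity
      generalize Real.exp (y / 4 - 1) ^ 2 * Real.exp (-y / 2) = w at *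
      have h9 : w * 7 ≤ 1 := by
        calc w * 7 ≤ w * Real.exp 1 ^ 2 := mul_le_mul_of_nonneg_left h5 h8
          _ = 1 := h3
      linarith
    have hstep : Real.exp (-y / 2) * Real.exp (-y / 2) * (1 - 2 / 25 * y ^ 2)
        ≤ Real.exp (-y / 2) * Real.exp (-y / 2) * Real.cos (κ * V x) := by
      apply mul_le_mul_of_nonneg_left _ (by positivity)
      linarith
    refine le_trans ?_ hstep
    have h10 := mul_le_mul_of_nonneg_left hkey hE.le
    have h11 : Real.exp (-y / 2) * Real.exp (-y / 2) * (1 - 2 / 25 * y ^ 2)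
        = Real.exp (-y / 2) * Real.exp (-y / 2)
          - 2 / 25 * (Real.exp (-y / 2) * (y ^ 2 * Real.exp (-y / 2))) := by ring
    rw [h11]
    linarith
  have hfin : ∫ x, (Real.exp (-κ * R x) - 1 / 5 * Real.exp (-(κ * R x) / 2))
      ≤ ∫ x, Real.exp (-κ * R x) * Real.cos (κ * V x) :=
    integral_mono (hint.sub (hI3.const_mul _)) hIc hpt
  rw [integral_sub hint (hI3.const_mul _), integral_const_mul] at hfin
  have hpos : 0 ≤ ∫ x, Real.exp (-κ * R x) := integral_nonneg fun x => (Real.exp_pos _).le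
  linarith

/-- The remainder of the first-order Taylor expansion of `U` at `c` along the horizontal line. -/
def Dl (e : ℝ) (c : ℂ) (d : ℝ) : ℂ := U e (c + d) - U e c - U1 e c * d

theorem nonneg_of_second {g g' g'' : ℝ → ℝ} (h1 : ∀ x, HasDerivAt g (g' x) x)
    (h2 : ∀ x, HasDerivAt g' (g'' x) x) (h3 : ∀ x, 0 ≤ g'' x) (h0 : g 0 = 0) (h0' : g' 0 = 0) (x : ℝ) :
    0 ≤ g x := by
  have hmono : Monotone g' := monotone_of_hasDerivAt_nonneg h2 h3
  have hc : Continuous g := continuous_iff_continuousAt.2 fun x => (h1 x).continuousAt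
  rcases le_total 0 x with hx | hx
  · have hm : MonotoneOn g (Set.Ici 0) := by
      refine monotoneOn_of_deriv_nonneg (convex_Ici 0) hc.continuousOn
        (fun y _ => (h1 y).differentiableAt.differentiableWithinAt) (fun y hy => ?_)
      rw [interior_Ici] at hy
      rw [(h1 y).deriv, ← h0']
      exact hmono (le_of_lt hy)
    have := hm (Set.self_mem_Ici) hx hx
    rwa [h0] at this
  · have hm : AntitoneOn g (Set.Iic 0) := by
      refine antitoneOn_of_deriv_nonpos (convex_Iic 0) hc.continuousOn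
        (fun y _ => (h1 y).differentiableAt.differentiableWithinAt) (fun y hy => ?_)
      rw [interior_Iic] at hy
      rw [(h1 y).deriv, ← h0']
      exact hmono (le_of_lt hy)
    have := hm hx (Set.self_mem_Iic) hx
    rwa [h0] at this

theorem re_deriv {F : ℝ → ℂ} {F' : ℂ} {x : ℝ} (h : HasDerivAt F F' x) :
    HasDerivAt (fun t => (F t).re) F'.re x :=
  Complex.reCLM.hasFDerivAt.comp_hasDerivAt x h

theorem im_deriv {F : ℝ → ℂ} {F' : ℂ} {x : ℝ} (h : HasDerivAt F F' x) :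
    HasDerivAt (fun t => (F t).im) F'.im x :=
  Complex.imCLM.hasFDerivAt.comp_hasDerivAt x h

theorem Dl_props {e : ℝ} (he0 : 0 ≤ e) (he1 : e ≤ 1 / 1000) {c : ℂ} (h : |c.im| ≤ 1 / 10) :
    Continuous (Dl e c) ∧ ConvexOn ℝ univ (fun d => (Dl e c d).re) ∧ Dl e c 0 = 0 ∧
      (∀ d, 0 ≤ (Dl e c d).re) ∧ (∀ d, |(Dl e c d).im| ≤ 2 / 5 * (Dl e c d).re) ∧
      ∀ d, (Dl e c d).re ≤ d ^ 2 := by
  have him : ∀ d : ℝ, (c + (d : ℂ)).im = c.im := fun d => by simp
  have himle : ∀ d : ℝ, |(c + (d : ℂ)).im| ≤ 1 / 10 := fun d => by rw [him]; exact h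
  have hlt : ∀ d : ℝ, |(c + (d : ℂ)).im| < Real.pi / 2 := fun d => by
    have := Real.pi_gt_three
    exact lt_of_le_of_lt (himle d) (by linarith)
  have hd1 : ∀ d : ℝ, HasDerivAt (Dl e c) (U1 e (c + d) - U1 e c) d := by
    intro d
    have h1 : HasDerivAt (fun w : ℂ => U e (c + w)) (U1 e (c + d)) (d : ℂ) :=
      HasDerivAt.comp_const_add c (d : ℂ) (hasDerivAt_U e (hlt d))
    have h2 : HasDerivAt (fun y : ℝ => U e (c + (y : ℂ))) (U1 e (c + d)) d := h1.comp_ofReal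
    have h3 : HasDerivAt (fun y : ℝ => U1 e c * (y : ℂ)) (U1 e c * 1) d :=
      (Complex.ofRealCLM.hasDerivAt (x := d)).const_mul (U1 e c)
    have := (h2.sub_const (U e c)).sub h3
    rw [mul_one] at this
    exact this
  have hd2 : ∀ d : ℝ, HasDerivAt (fun d : ℝ => U1 e (c + d) - U1 e c) (U2 e (c + d)) d := by
    intro d
    have h1 : HasDerivAt (fun w : ℂ => U1 e (c + w)) (U2 e (c + d)) (d : ℂ) :=
      HasDerivAt.comp_const_add c (d : ℂ) (hasDerivAt_U1 e (hlt d))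
    exact (h1.comp_ofReal).sub_const _
  have hr1 := fun d : ℝ => re_deriv (hd1 d)
  have hr2 := fun d : ℝ => re_deriv (hd2 d)
  have hi1 := fun d : ℝ => im_deriv (hd1 d)
  have hi2 := fun d : ℝ => im_deriv (hd2 d)
  have hD0 : Dl e c 0 = 0 := by simp [Dl]
  have hU0 : U1 e (c + ((0 : ℝ) : ℂ)) - U1 e c = 0 := by simp
  have hwt : ∀ a, 0 ≤ wt a := fun a => by unfold wt; positivity
  have hre : ∀ d : ℝ, 0 ≤ (U2 e (c + d)).re := fun d => by
    have := U2_re_ge he0 he1 (himle d)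
    have := hwt (c + (d : ℂ)).re
    linarith
  have himU : ∀ d : ℝ, |(U2 e (c + d)).im| ≤ 2 / 5 * (U2 e (c + d)).re := fun d => by
    have h1 := U2_im_le he0 he1 (himle d)
    have h2 := hre d
    rw [him] at h1
    nlinarith
  refine ⟨?_, ?_, hD0, ?_, ?_, ?_⟩
  · exact continuous_iff_continuousAt.2 fun d => (hd1 d).continuousAt
  · refine Monotone.convexOn_univ_of_deriv (fun d => (hr1 d).differentiableAt) ?_
    have e1 : deriv (fun d => (Dl e c d).re) = fun d : ℝ => (U1 e (c + d) - U1 e c).re :=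
      funext fun d => (hr1 d).deriv
    rw [e1]
    exact monotone_of_hasDerivAt_nonneg hr2 hre
  · intro d
    exact nonneg_of_second hr1 hr2 hre (by rw [hD0]; rfl) (by rw [hU0]; rfl) d
  · intro d
    have hA := nonneg_of_second (fun d => ((hr1 d).const_mul (2 / 5)).sub (hi1 d))
      (fun d => ((hr2 d).const_mul (2 / 5)).sub (hi2 d)) (fun d => by
        have := (abs_le.1 (himU d)).2
        linarith) (by simp [hD0]) (by simp) d
    have hB := nonneg_of_second (fun d => ((hr1 d).const_mul (2 / 5)).add (hi1 d))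
      (fun d => ((hr2 d).const_mul (2 / 5)).add (hi2 d)) (fun d => by
        have := (abs_le.1 (himU d)).1
        linarith) (by simp [hD0]) (by simp) d
    simp only [Pi.sub_apply, Pi.add_apply] at hA hB
    rw [abs_le]
    constructor <;> linarith
  · intro d
    have hsq1 : ∀ d : ℝ, HasDerivAt (fun d : ℝ => d ^ 2) (2 * d) d := fun d => by
      simpa using hasDerivAt_pow 2 d
    have hsq2 : ∀ d : ℝ, HasDerivAt (fun d : ℝ => 2 * d) 2 d := fun d => by
      simpa using (hasDerivAt_id d).const_mul (2 : ℝ)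
    have hA := nonneg_of_second (fun d => (hsq1 d).sub (hr1 d))
      (fun d => (hsq2 d).sub (hr2 d)) (fun d => by
        have h1 := U2_norm_le he0 he1 (himle d)
        have h2 := Complex.re_le_norm (U2 e (c + d))
        linarith) (by simp [hD0]) (by simp) d
    simp only [Pi.sub_apply] at hA
    linarith

/-- The moment integral. -/
def J (e κ : ℝ) (x : ℂ) : ℂ := ∫ ρ : ℝ, Complex.exp (κ * (x * ρ - uR e ρ))

/-- The moment integral for real arguments. -/
def JR (e κ x : ℝ) : ℝ := ∫ ρ : ℝ, Real.exp (κ * (x * ρ - uR e ρ))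

theorem J_ofReal (e κ x : ℝ) : J e κ (x : ℂ) = (JR e κ x : ℂ) := by
  unfold J JR
  have h : ∀ ρ : ℝ, Complex.exp (κ * ((x : ℂ) * ρ - uR e ρ))
      = ((Real.exp (κ * (x * ρ - uR e ρ)) : ℝ) : ℂ) := by
    intro ρ; push_cast; rfl
  simp only [h]
  exact integral_ofReal

theorem aux_int_exp_abs {c : ℝ} (hc : 0 < c) : Integrable (fun x : ℝ => Real.exp (-c * |x|)) := by
  rw [← integrableOn_univ, ← Iic_union_Ioi (a := (0:ℝ)), integrableOn_union]
  constructor
  · refine (integrableOn_exp_mul_Iic hc 0).congr_fun (fun x hx => ?_) measurableSet_Iic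
    simp only
    rw [abs_of_nonpos hx]
    ring_nf
  · refine (integrableOn_exp_mul_Ioi (neg_neg_of_pos hc) 0).congr_fun (fun x hx => ?_)
      measurableSet_Ioi
    simp only
    rw [abs_of_pos hx]

theorem aux_continuous_uR (e : ℝ) : Continuous (uR e) := by
  unfold uR
  refine Continuous.add ?_ (by fun_prop)
  refine Continuous.log (by fun_prop) fun x => ?_
  positivity

theorem aux_uR_ge {e : ℝ} (he0 : 0 ≤ e) (ρ : ℝ) : max 0 ρ ≤ uR e ρ := by
  have h1 : 0 ≤ e * Real.exp (-Real.exp (-ρ)) := mul_nonneg he0 (Real.exp_pos _).le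
  have h2 : max 0 ρ ≤ Real.log (1 + Real.exp ρ) := by
    apply max_le
    · exact Real.log_nonneg (by linarith [Real.exp_pos ρ])
    · rw [Real.le_log_iff_exp_le (by positivity)]
      linarith
  unfold uR
  linarith

theorem aux_norm_le {e κ s : ℝ} (he0 : 0 ≤ e) (hκ : 1 ≤ κ) (hs : 0 < s) {y : ℂ} (h0 : s ≤ y.re)
    (h1 : y.re ≤ 1 - s) (ρ : ℝ) :
    ‖Complex.exp (κ * (y * ρ - uR e ρ))‖ ≤ Real.exp (-s * |ρ|) := by
  rw [Complex.norm_exp]
  apply Real.exp_le_exp.mpr
  have e1 : ((κ : ℂ) * (y * ρ - uR e ρ)).re = κ * (y.re * ρ - uR e ρ) := by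
    simp
  rw [e1]
  have h2 := aux_uR_ge he0 ρ
  have h3 : y.re * ρ - uR e ρ ≤ -s * |ρ| := by
    rcases le_total 0 ρ with h | h
    · rw [abs_of_nonneg h]
      rw [max_eq_right h] at h2
      nlinarith
    · rw [abs_of_nonpos h]
      rw [max_eq_left h] at h2
      nlinarith
  have h4 : -s * |ρ| ≤ 0 := by nlinarith [abs_nonneg ρ]
  nlinarith

theorem differentiableAt_J {e κ : ℝ} (he0 : 0 ≤ e) (he1 : e ≤ 1 / 1000) (hκ : 1 ≤ κ) {x : ℂ}
    (h0 : 0 < x.re) (h1 : x.re < 1) : DifferentiableAt ℂ (J e κ) x := by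
  obtain ⟨s, hs⟩ : ∃ s : ℝ, s = min x.re (1 - x.re) / 2 := ⟨_, rfl⟩
  have hmin : 0 < min x.re (1 - x.re) := lt_min h0 (by linarith)
  have hs0 : 0 < s := by rw [hs]; linarith
  have hsx : 2 * s ≤ x.re := by rw [hs]; linarith [min_le_left x.re (1 - x.re)]
  have hsx' : 2 * s ≤ 1 - x.re := by rw [hs]; linarith [min_le_right x.re (1 - x.re)]
  have hball : ∀ y ∈ Metric.ball x s, s ≤ y.re ∧ y.re ≤ 1 - s := by
    intro y hy
    rw [Metric.mem_ball, dist_eq_norm] at hy
    have h2 : |y.re - x.re| ≤ ‖y - x‖ := by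
      have := Complex.abs_re_le_norm (y - x)
      simpa using this
    have h3 := abs_le.mp (h2.trans hy.le)
    constructor <;> linarith [h3.1, h3.2]
  have hcu := aux_continuous_uR e
  have hcF : ∀ y : ℂ, Continuous (fun ρ : ℝ => Complex.exp (κ * (y * ρ - uR e ρ))) := by
    intro y
    have : Continuous (fun ρ : ℝ => ((uR e ρ : ℝ) : ℂ)) := Complex.continuous_ofReal.comp hcu
    fun_prop
  have hcF' : ∀ y : ℂ, Continuous
      (fun ρ : ℝ => Complex.exp (κ * (y * ρ - uR e ρ)) * (κ * ρ)) := by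
    intro y
    exact (hcF y).mul (by fun_prop)
  have hbi : Integrable (fun ρ : ℝ => κ * (2 / s) * Real.exp (-(s / 2) * |ρ|)) :=
    (aux_int_exp_abs (half_pos hs0)).const_mul _
  have key := hasDerivAt_integral_of_dominated_loc_of_deriv_le
    (μ := (volume : Measure ℝ)) (𝕜 := ℂ)
    (F := fun (y : ℂ) (ρ : ℝ) => Complex.exp (κ * (y * ρ - uR e ρ)))
    (F' := fun (y : ℂ) (ρ : ℝ) => Complex.exp (κ * (y * ρ - uR e ρ)) * (κ * ρ))
    (x₀ := x) (s := Metric.ball x s) (bound := fun ρ : ℝ => κ * (2 / s) * Real.exp (-(s / 2) * |ρ|))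
    (Metric.ball_mem_nhds x hs0)
    (Filter.Eventually.of_forall fun y => (hcF y).aestronglyMeasurable)
    ?_ (hcF' x).aestronglyMeasurable ?_ hbi ?_
  · exact key.2.differentiableAt
  · refine Integrable.mono' (aux_int_exp_abs hs0) (hcF x).aestronglyMeasurable ?_
    refine Filter.Eventually.of_forall fun ρ => ?_
    exact aux_norm_le he0 hκ hs0 (by linarith) (by linarith) ρ
  · refine Filter.Eventually.of_forall fun ρ y hy => ?_
    obtain ⟨h2, h3⟩ := hball y hy
    rw [norm_mul]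
    have h4 := aux_norm_le he0 hκ hs0 h2 h3 ρ
    have h5 : ‖((κ : ℂ) * (ρ : ℂ))‖ = κ * |ρ| := by
      rw [norm_mul, Complex.norm_real, Complex.norm_real, Real.norm_eq_abs, Real.norm_eq_abs,
        abs_of_pos (by linarith)]
    rw [h5]
    have h6 : |ρ| ≤ 2 / s * Real.exp (s / 2 * |ρ|) := by
      have h7 := Real.add_one_le_exp (s / 2 * |ρ|)
      rw [div_mul_eq_mul_div, le_div_iff₀ hs0]
      linarith
    have h8 : Real.exp (-s * |ρ|) * Real.exp (s / 2 * |ρ|) = Real.exp (-(s / 2) * |ρ|) := by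
      rw [← Real.exp_add]; congr 1; ring
    calc ‖Complex.exp (κ * (y * ρ - uR e ρ))‖ * (κ * |ρ|)
        ≤ Real.exp (-s * |ρ|) * (κ * (2 / s * Real.exp (s / 2 * |ρ|))) := by
          refine mul_le_mul h4 ?_ (by positivity) (Real.exp_pos _).le
          exact mul_le_mul_of_nonneg_left h6 (by linarith)
      _ = κ * (2 / s) * (Real.exp (-s * |ρ|) * Real.exp (s / 2 * |ρ|)) := by ring
      _ = κ * (2 / s) * Real.exp (-(s / 2) * |ρ|) := by rw [h8]
  · refine Filter.Eventually.of_forall fun ρ y _ => ?_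
    have h2 : HasDerivAt (fun y : ℂ => (κ : ℂ) * (y * ρ - uR e ρ)) (κ * ρ) y := by
      have h3 : HasDerivAt (fun y : ℂ => y * (ρ : ℂ) - (uR e ρ : ℂ)) (1 * ρ) y :=
        ((hasDerivAt_id y).mul_const (ρ : ℂ)).sub_const _
      have h4 := h3.const_mul (κ : ℂ)
      rwa [one_mul] at h4
    exact h2.cexp

/-- Bounds for the integrand on the strip. -/
theorem norm_integrand_le {e κ : ℝ} (he0 : 0 ≤ e) (he1 : e ≤ 1 / 1000) (hκ : 1 ≤ κ) {x : ℂ}
    (h0 : 0 < x.re) (h1 : x.re < 1) {ρ : ℂ} (h : |ρ.im| ≤ 1 / 10) :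
    ‖Complex.exp (κ * (x * ρ - U e ρ))‖ ≤
      Real.exp (κ * (|x.im| + 1)) * Real.exp (-(κ * min x.re (1 - x.re)) * |ρ.re|) := by
  rw [Complex.norm_exp, ← Real.exp_add]
  apply Real.exp_le_exp.mpr
  have hU := U_re_ge he0 he1 h
  have hre : ((κ : ℂ) * (x * ρ - U e ρ)).re =
      κ * (x.re * ρ.re - x.im * ρ.im - (U e ρ).re) := by
    simp [Complex.mul_re, Complex.sub_re]
  rw [hre]
  have him : -(x.im * ρ.im) ≤ |x.im| := by
    have h2 : |x.im * ρ.im| ≤ |x.im| * (1 / 10) := by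
      rw [abs_mul]
      exact mul_le_mul_of_nonneg_left h (abs_nonneg _)
    have h3 := neg_abs_le (x.im * ρ.im)
    have h4 := abs_nonneg x.im
    linarith
  have hm1 : min x.re (1 - x.re) ≤ x.re := min_le_left _ _
  have hm2 : min x.re (1 - x.re) ≤ 1 - x.re := min_le_right _ _
  have ha : x.re * ρ.re - max 0 ρ.re ≤ -(min x.re (1 - x.re) * |ρ.re|) := by
    rcases le_total 0 ρ.re with hp | hp
    · rw [max_eq_right hp, abs_of_nonneg hp]
      nlinarith
    · rw [max_eq_left hp, abs_of_nonpos hp]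
      nlinarith
  have hκ0 : (0 : ℝ) ≤ κ := by linarith
  have hfin : x.re * ρ.re - x.im * ρ.im - (U e ρ).re ≤
      (|x.im| + 1) - min x.re (1 - x.re) * |ρ.re| := by linarith
  calc κ * (x.re * ρ.re - x.im * ρ.im - (U e ρ).re) ≤
      κ * ((|x.im| + 1) - min x.re (1 - x.re) * |ρ.re|) := mul_le_mul_of_nonneg_left hfin hκ0
    _ = _ := by ring

theorem jl_int (a : ℝ) (ha : 0 < a) : Integrable (fun y : ℝ => Real.exp (-a * |y|)) := by
  rw [← integrableOn_univ, ← Iic_union_Ioi (a := (0:ℝ)), integrableOn_union]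
  constructor
  · refine (integrableOn_exp_mul_Iic ha 0).congr_fun ?_ measurableSet_Iic
    intro y hy
    simp only
    rw [abs_of_nonpos hy]
    ring_nf
  · refine (integrableOn_exp_mul_Ioi (neg_lt_zero.mpr ha) 0).congr_fun ?_ measurableSet_Ioi
    intro y hy
    simp only
    rw [abs_of_pos hy]

theorem jl_low {R : ℝ → ℝ} {κ : ℝ} (hκ : 1 ≤ κ) (hR : ∀ d, R d ≤ d ^ 2)
    (hint : Integrable (fun x => Real.exp (-κ * R x))) :
    1 / (2 * κ) ≤ ∫ x, Real.exp (-κ * R x) := by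
  have hκ0 : 0 < κ := by linarith
  have h1 : ∫ x in Icc (-(1/κ)) (1/κ), Real.exp (-κ * R x) ≤ ∫ x, Real.exp (-κ * R x) :=
    setIntegral_le_integral hint (Filter.Eventually.of_forall fun x => (Real.exp_pos _).le)
  refine le_trans ?_ h1
  have h2 : ∫ _x in Icc (-(1/κ)) (1/κ), Real.exp (-1) ≤
      ∫ x in Icc (-(1/κ)) (1/κ), Real.exp (-κ * R x) := by
    apply setIntegral_mono_on
    · exact integrableOn_const (by rw [Real.volume_Icc]; exact ENNReal.ofReal_ne_top)
    · exact hint.integrableOn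
    · exact measurableSet_Icc
    · intro d hd
      apply Real.exp_le_exp.mpr
      have h3 : d ^ 2 ≤ (1/κ) ^ 2 := by
        rw [← sq_abs d]
        exact pow_le_pow_left₀ (abs_nonneg _) (abs_le.mpr hd) 2
      have h4 : κ * R d ≤ κ * (1/κ) ^ 2 := mul_le_mul_of_nonneg_left ((hR d).trans h3) hκ0.le
      have h5 : κ * (1/κ) ^ 2 = 1/κ := by field_simp
      have h6 : 1/κ ≤ 1 := by
        rw [div_le_one hκ0]
        exact hκ
      linarith
  refine le_trans ?_ h2
  rw [setIntegral_const, smul_eq_mul, Real.volume_real_Icc_of_le (by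
    have : 0 < 1/κ := by positivity
    linarith)]
  have h7 : (1/4 : ℝ) ≤ Real.exp (-1) := by
    rw [Real.exp_neg, ← one_div]
    apply one_div_le_one_div_of_le (Real.exp_pos 1)
    have := Real.exp_one_lt_d9
    linarith
  have h8 : 1/κ - -(1/κ) = 2 * (1/κ) := by ring
  rw [h8]
  have h9 : 0 < 1/κ := by positivity
  calc 1 / (2 * κ) = 2 * (1/κ) * (1/4) := by
        field_simp
        norm_num
    _ ≤ 2 * (1/κ) * Real.exp (-1) := mul_le_mul_of_nonneg_left h7 (by positivity)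

/-- The lower bound of the moment integral at a (complex) saddle point. -/
theorem J_lower {e κ : ℝ} (he0 : 0 ≤ e) (he1 : e ≤ 1 / 1000) (hκ : 1 ≤ κ) {c : ℂ}
    (hc : |c.im| ≤ 1 / 10) (h0 : 0 < (U1 e c).re) (h1 : (U1 e c).re < 1) :
    1 / (4 * κ) * Real.exp (κ * (U1 e c * c - U e c).re) ≤ ‖J e κ (U1 e c)‖ := by
  have hκ0 : 0 < κ := by linarith
  obtain ⟨hDc, hDconv, hD0, hDre, hDim, hDle⟩ := Dl_props he0 he1 hc
  set x := U1 e c with hx
  set F : ℂ → ℂ := fun z => Complex.exp (κ * (x * z - U e z)) with hF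
  have hJ : J e κ x = ∫ t : ℝ, F t := by
    unfold J
    congr 1
    ext t
    rw [hF]
    simp only
    rw [U_ofReal]
  have hpi : (1:ℝ)/10 < Real.pi/2 := by
    have := Real.pi_gt_three
    linarith
  have hdiff : ∀ z : ℂ, |z.im| ≤ |c.im| → DifferentiableAt ℂ F z := by
    intro z hz
    have h2 := (hasDerivAt_U e (ρ := z) (lt_of_le_of_lt (hz.trans hc) hpi)).differentiableAt
    exact (((differentiableAt_id.const_mul x).sub h2).const_mul (κ:ℂ)).cexp
  have hbd : ∀ z : ℂ, |z.im| ≤ |c.im| → ‖F z‖ ≤ Real.exp (κ * (|x.im| + 1)) *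
      Real.exp (-(κ * min x.re (1 - x.re)) * |z.re|) := fun z hz =>
    norm_integrand_le he0 he1 hκ h0 h1 (hz.trans hc)
  have hmin : 0 < κ * min x.re (1 - x.re) := mul_pos hκ0 (lt_min h0 (by linarith))
  have hshift := integral_shift (F := F) (b := c.im) hmin hdiff hbd
  have htr : ∫ t : ℝ, F (t + c.im * Complex.I) = ∫ d : ℝ, F (c + d) := by
    rw [← integral_add_right_eq_self (fun t : ℝ => F (t + c.im * Complex.I)) c.re]
    congr 1
    ext d
    congr 1
    apply Complex.ext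
    · simp
      ring
    · simp
  have hFe : ∀ d : ℝ, F (c + d) = Complex.exp (κ * (x * c - U e c)) *
      Complex.exp (-κ * Dl e c d) := by
    intro d
    rw [hF]
    simp only
    rw [← Complex.exp_add]
    congr 1
    unfold Dl
    rw [← hx]
    ring
  have hJ2 : J e κ x = Complex.exp (κ * (x * c - U e c)) *
      ∫ d : ℝ, Complex.exp (-κ * (((Dl e c d).re : ℂ) + (Dl e c d).im * Complex.I)) := by
    rw [hJ, ← hshift, htr]
    rw [← integral_const_mul]
    congr 1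
    ext d
    rw [Complex.re_add_im]
    exact hFe d
  have hre : (κ * (x * c - U e c) : ℂ).re = κ * (x * c - U e c).re := by
    rw [Complex.re_ofReal_mul]
  have hnorm : ∀ d : ℝ, Real.exp (-κ * (Dl e c d).re) =
      Real.exp (-(κ * (x * c - U e c).re)) * ‖F (c + d)‖ := by
    intro d
    rw [hFe, norm_mul, Complex.norm_exp, Complex.norm_exp, hre, ← mul_assoc, ← Real.exp_add,
      neg_add_cancel, Real.exp_zero, one_mul]
    congr 1
    have h2 : (-(κ:ℂ) * Dl e c d) = ((-κ : ℝ) : ℂ) * Dl e c d := by push_cast; ring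
    rw [h2, Complex.re_ofReal_mul]
  have hint : Integrable (fun d => Real.exp (-κ * (Dl e c d).re)) := by
    have h2 := ((jl_int _ hmin).comp_add_left c.re).const_mul
      (Real.exp (-(κ * (x * c - U e c).re)) * Real.exp (κ * (|x.im| + 1)))
    apply h2.mono'
    · have hcont : Continuous (fun d => Real.exp (-κ * (Dl e c d).re)) :=
        Real.continuous_exp.comp (continuous_const.mul (Complex.continuous_re.comp hDc))
      exact hcont.aestronglyMeasurable
    · apply Filter.Eventually.of_forall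
      intro d
      rw [Real.norm_of_nonneg (Real.exp_pos _).le, hnorm d, mul_assoc]
      apply mul_le_mul_of_nonneg_left _ (Real.exp_pos _).le
      have h3 := hbd (c + d) (by simp)
      simpa using h3
  have hhalf := half_integral_le_norm (R := fun d => (Dl e c d).re) (V := fun d => (Dl e c d).im)
    hκ0 (Complex.continuous_re.comp hDc) (Complex.continuous_im.comp hDc) hDconv (by
      rw [hD0, Complex.zero_re]) hDre hDim hint
  have hlow := jl_low (R := fun d => (Dl e c d).re) hκ hDle hint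
  rw [hJ2, norm_mul, Complex.norm_exp, hre]
  rw [mul_comm]
  apply mul_le_mul_of_nonneg_left _ (Real.exp_pos _).le
  refine le_trans ?_ hhalf
  calc 1 / (4 * κ) = 1/2 * (1 / (2 * κ)) := by
        field_simp
        norm_num
    _ ≤ _ := by
        apply mul_le_mul_of_nonneg_left hlow (by norm_num)

/-- The tangent at a complex point lies almost below the real graph. -/
theorem tangent_le {e : ℝ} (he0 : 0 ≤ e) (he1 : e ≤ 1 / 1000) {c : ℂ} (hc : |c.im| ≤ 1 / 10)
    (L : ℝ) : (U e c + U1 e c * (L - c)).re ≤ uR e L + (2 * |L - c.re| + 1) * c.im ^ 2 := by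
  obtain ⟨a, b, rfl⟩ : ∃ a b : ℝ, c = (a : ℂ) + (b : ℂ) * Complex.I := ⟨c.re, c.im, by simp⟩
  have hre : ((a : ℂ) + (b : ℂ) * Complex.I).re = a := by simp
  have him : ((a : ℂ) + (b : ℂ) * Complex.I).im = b := by simp
  rw [hre, him]
  rw [him] at hc
  have hpi : (1 : ℝ) / 10 < Real.pi / 2 := by
    have := Real.pi_gt_three
    linarith
  -- the path
  have hγim : ∀ t : ℝ, ((a : ℂ) + (t : ℂ) * ((b : ℂ) * Complex.I)).im = t * b := by
    intro t; simp
  have hsm : ∀ t ∈ Set.Icc (0 : ℝ) 1, |t * b| ≤ 1 / 10 := by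
    intro t ht
    rw [abs_mul, abs_of_nonneg ht.1]
    calc t * |b| ≤ 1 * |b| := mul_le_mul_of_nonneg_right ht.2 (abs_nonneg _)
      _ ≤ 1 / 10 := by rw [one_mul]; exact hc
  have hder : ∀ t ∈ Set.Icc (0 : ℝ) 1, HasDerivAt (fun s : ℝ =>
      (U e ((a : ℂ) + (s : ℂ) * ((b : ℂ) * Complex.I)) +
        U1 e ((a : ℂ) + (s : ℂ) * ((b : ℂ) * Complex.I)) *
          ((L : ℂ) - ((a : ℂ) + (s : ℂ) * ((b : ℂ) * Complex.I)))).re - (4 * |L - a| + 1) / 2 * b ^ 2 * s ^ 2)
      ((U2 e ((a : ℂ) + (t : ℂ) * ((b : ℂ) * Complex.I)) * ((b : ℂ) * Complex.I) *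
        ((L : ℂ) - ((a : ℂ) + (t : ℂ) * ((b : ℂ) * Complex.I)))).re - (4 * |L - a| + 1) * b ^ 2 * t) t := by
    intro t ht
    have hlt : |((a : ℂ) + (t : ℂ) * ((b : ℂ) * Complex.I)).im| < Real.pi / 2 := by
      rw [hγim]; exact (hsm t ht).trans_lt hpi
    have h1 : HasDerivAt (fun w : ℂ => (a : ℂ) + w * ((b : ℂ) * Complex.I)) ((b : ℂ) * Complex.I) (t : ℂ) := by
      have := ((hasDerivAt_id (t : ℂ)).mul_const ((b : ℂ) * Complex.I)).const_add (a : ℂ)
      simpa using this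
    have h2 : HasDerivAt (fun w : ℂ => U e ((a : ℂ) + w * ((b : ℂ) * Complex.I)))
        (U1 e ((a : ℂ) + (t : ℂ) * ((b : ℂ) * Complex.I)) * ((b : ℂ) * Complex.I)) (t : ℂ) :=
      HasDerivAt.comp (t : ℂ) (hasDerivAt_U e hlt) h1
    have h3 : HasDerivAt (fun w : ℂ => U1 e ((a : ℂ) + w * ((b : ℂ) * Complex.I)))
        (U2 e ((a : ℂ) + (t : ℂ) * ((b : ℂ) * Complex.I)) * ((b : ℂ) * Complex.I)) (t : ℂ) :=
      HasDerivAt.comp (t : ℂ) (hasDerivAt_U1 e hlt) h1
    have h4 := (h2.add (h3.mul (h1.const_sub (L : ℂ)))).real_of_complex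
    have h5 : HasDerivAt (fun s : ℝ => (4 * |L - a| + 1) / 2 * b ^ 2 * s ^ 2)
        ((4 * |L - a| + 1) * b ^ 2 * t) t := by
      have := (hasDerivAt_pow 2 t).const_mul ((4 * |L - a| + 1) / 2 * b ^ 2)
      refine this.congr_deriv ?_
      simp; ring
    refine (h4.sub h5).congr_deriv ?_
    congr 2
    ring
  have hanti : AntitoneOn (fun s : ℝ =>
      (U e ((a : ℂ) + (s : ℂ) * ((b : ℂ) * Complex.I)) +
        U1 e ((a : ℂ) + (s : ℂ) * ((b : ℂ) * Complex.I)) *
          ((L : ℂ) - ((a : ℂ) + (s : ℂ) * ((b : ℂ) * Complex.I)))).re - (4 * |L - a| + 1) / 2 * b ^ 2 * s ^ 2)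
      (Set.Icc 0 1) := by
    refine antitoneOn_of_deriv_nonpos (convex_Icc 0 1)
      (fun t ht => (hder t ht).continuousAt.continuousWithinAt) ?_ ?_
    · intro t ht
      rw [interior_Icc] at ht
      exact (hder t ⟨ht.1.le, ht.2.le⟩).differentiableAt.differentiableWithinAt
    · intro t ht
      rw [interior_Icc] at ht
      have ht' : t ∈ Set.Icc (0 : ℝ) 1 := ⟨ht.1.le, ht.2.le⟩
      rw [(hder t ht').deriv]
      set z : ℂ := (a : ℂ) + (t : ℂ) * ((b : ℂ) * Complex.I) with hz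
      have hzim : z.im = t * b := hγim t
      have hzre : z.re = a := by rw [hz]; simp
      have e1 : (U2 e z * ((b : ℂ) * Complex.I) * ((L : ℂ) - z)).re =
          -(U2 e z).im * b * (L - a) + (U2 e z).re * t * b ^ 2 := by
        simp only [Complex.mul_re, Complex.mul_im, Complex.sub_re, Complex.sub_im,
          Complex.ofReal_re, Complex.ofReal_im, Complex.I_re, Complex.I_im, hzim, hzre]
        ring
      rw [e1]
      have hzs : |z.im| ≤ 1 / 10 := by rw [hzim]; exact hsm t ht'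
      have e2 := U2_im_le he0 he1 hzs
      have e3 := U2_norm_le he0 he1 hzs
      have e4 := (Complex.re_le_norm (U2 e z)).trans e3
      have e5 : 0 ≤ (U2 e z).re := by
        refine le_trans ?_ (U2_re_ge he0 he1 hzs)
        unfold wt
        positivity
      rw [hzim, abs_mul, abs_of_pos ht.1] at e2
      have e6 : -(U2 e z).im * b * (L - a) ≤ |(U2 e z).im| * (|b| * |L - a|) := by
        rw [← abs_mul, ← abs_mul]
        refine le_trans (le_of_eq (by ring)) (neg_le_abs _)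
      have e7 : |(U2 e z).im| * (|b| * |L - a|) ≤ (4 * (t * |b|) * (U2 e z).re) * (|b| * |L - a|) :=
        mul_le_mul_of_nonneg_right e2 (by positivity)
      have e8 : (4 * (t * |b|) * (U2 e z).re) * (|b| * |L - a|) =
          (U2 e z).re * (4 * t * b ^ 2 * |L - a|) := by
        rw [← sq_abs b]; ring
      have e9 : (U2 e z).re * (4 * t * b ^ 2 * |L - a|) ≤ 1 * (4 * t * b ^ 2 * |L - a|) :=
        mul_le_mul_of_nonneg_right e4 (by have := ht.1.le; positivity)
      have e10 : (U2 e z).re * (t * b ^ 2) ≤ 1 * (t * b ^ 2) :=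
        mul_le_mul_of_nonneg_right e4 (by have := ht.1.le; positivity)
      linarith
  have hfin := hanti (Set.left_mem_Icc.2 zero_le_one) (Set.right_mem_Icc.2 zero_le_one) zero_le_one
  simp only [Complex.ofReal_one, Complex.ofReal_zero, one_mul, zero_mul, add_zero] at hfin
  rw [U_ofReal, U1_ofReal] at hfin
  have h0 : (((uR e a : ℝ) : ℂ) + ((u1R e a : ℝ) : ℂ) * ((L : ℂ) - (a : ℂ))).re =
      uR e a + u1R e a * (L - a) := by simp
  rw [h0] at hfin
  have htan : uR e a + u1R e a * (L - a) ≤ uR e L := by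
    have hcv := uR_convexOn he0 he1
    rcases lt_trichotomy a L with h | h | h
    · have := hcv.le_slope_of_hasDerivAt (Set.mem_univ a) (Set.mem_univ L) h (hasDerivAt_uR e a)
      rw [slope_def_field, le_div_iff₀ (by linarith)] at this
      linarith
    · rw [h]; simp
    · have := hcv.slope_le_of_hasDerivAt (Set.mem_univ L) (Set.mem_univ a) h (hasDerivAt_uR e a)
      rw [slope_def_field, div_le_iff₀ (by linarith)] at this
      linarith
  have hb2 : 0 ≤ b ^ 2 := sq_nonneg b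
  nlinarith

lemma es_continuous_u1R (e : ℝ) : Continuous (u1R e) := by
  unfold u1R
  have h : ∀ ρ : ℝ, (1 + Real.exp (-ρ)) ≠ 0 := fun ρ => by positivity
  refine Continuous.add ?_ ?_
  · exact Continuous.div continuous_const (by fun_prop) h
  · fun_prop

lemma es_wt_ge (a : ℝ) : Real.exp (-|a|) / 4 ≤ wt a := by
  unfold wt
  rcases le_total 0 a with h | h
  · rw [abs_of_nonneg h]
    have h1 : Real.exp (-a) ≤ 1 := Real.exp_le_one_iff.mpr (by linarith)
    have h0 : 0 < Real.exp (-a) := Real.exp_pos _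
    refine div_le_div_of_nonneg_left h0.le (by positivity) ?_
    nlinarith
  · rw [abs_of_nonpos h, neg_neg]
    have h1 : Real.exp a ≤ 1 := Real.exp_le_one_iff.mpr h
    have h0 : 0 < Real.exp a := Real.exp_pos _
    rw [Real.exp_neg]
    have e : (Real.exp a)⁻¹ / (1 + (Real.exp a)⁻¹) ^ 2 = Real.exp a / (1 + Real.exp a) ^ 2 := by
      field_simp
      ring
    rw [e]
    refine div_le_div_of_nonneg_left h0.le (by positivity) ?_
    nlinarith

/-- Existence of real saddle points. -/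
lemma es_real {η : ℝ} (h0 : 0 < η) (h1 : η < 1 / 2) {e : ℝ} (he0 : 0 ≤ e) (he1 : e ≤ 1 / 1000)
    {x₀ : ℝ} (hx0 : η ≤ x₀) (hx1 : x₀ ≤ 1 - η) :
    ∃ r : ℝ, |r| ≤ Real.log (2 / η) ∧ u1R e r = x₀ := by
  have hL : 0 < Real.log (2 / η) := Real.log_pos (by rw [lt_div_iff₀ h0]; linarith)
  have hexp : Real.exp (Real.log (2 / η)) = 2 / η := Real.exp_log (by positivity)
  set L := Real.log (2 / η) with hLdef
  have hlow : u1R e (-L) ≤ x₀ := by
    refine le_trans ?_ hx0
    unfold u1R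
    rw [neg_neg, hexp]
    obtain ⟨q, hq⟩ : ∃ q : ℝ, q = 2 / η := ⟨_, rfl⟩
    have hq0 : 0 < q := by rw [hq]; positivity
    rw [← hq]
    have h2 : 1 / (1 + q) ≤ 1 / q := one_div_le_one_div_of_le hq0 (by linarith)
    have h3 : q ^ 2 / 2 ≤ Real.exp q := by
      have := Real.quadratic_le_exp_of_nonneg hq0.le
      linarith
    have h4 : e * (q * Real.exp (-q)) ≤ 1 / q := by
      have h5 : q * Real.exp (-q) ≤ 2 / q := by
        rw [Real.exp_neg, le_div_iff₀ hq0]
        have : q * (Real.exp q)⁻¹ * q = 2 * ((q ^ 2 / 2) / Real.exp q) := by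
          field_simp
        rw [this]
        have h6 : (q ^ 2 / 2) / Real.exp q ≤ 1 := by
          rw [div_le_one (Real.exp_pos _)]; exact h3
        linarith
      have h6 : 0 ≤ q * Real.exp (-q) := by positivity
      have h7 : e * (q * Real.exp (-q)) ≤ (1 / 1000) * (2 / q) :=
        mul_le_mul he1 h5 h6 (by norm_num)
      refine h7.trans ?_
      rw [← mul_div_assoc]
      exact div_le_div_of_nonneg_right (by norm_num) hq0.le
    have h5 : 1 / q + 1 / q = η := by rw [hq]; field_simp; norm_num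
    linarith
  have hhigh : x₀ ≤ u1R e L := by
    refine hx1.trans (le_trans ?_ (u1R_ge he0 L))
    rw [Real.exp_neg, hexp]
    rw [le_div_iff₀ (by positivity)]
    have : (2 / η)⁻¹ = η / 2 := by field_simp
    rw [this]
    nlinarith
  have himg := intermediate_value_Icc (by linarith : -L ≤ L)
    (es_continuous_u1R e).continuousOn
  obtain ⟨r, hr, hr2⟩ := himg ⟨hlow, hhigh⟩
  exact ⟨r, abs_le.mpr ⟨hr.1, hr.2⟩, hr2⟩

/-- Lower bound of differences. -/
lemma es_lower {e : ℝ} (he0 : 0 ≤ e) (he1 : e ≤ 1 / 1000) {r M k : ℝ} {α : ℝ}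
    (hα : α ≤ 1 / 10) (hr : |r| + α ≤ M) (hk : k ≤ Real.exp (-M) / 8) {z : ℂ}
    (hz : ‖z - r‖ ≤ α) : k * ‖z - r‖ ≤ ‖U1 e z - U1 e r‖ := by
  set w : ℂ := z - r with hw
  -- the points on the segment
  have hseg : ∀ t ∈ Icc (0 : ℝ) 1, |((r : ℂ) + t * w).im| ≤ 1 / 10 ∧
      |((r : ℂ) + t * w).re| ≤ M := by
    intro t ht
    have hn : ‖(t : ℂ) * w‖ ≤ α := by
      rw [norm_mul, Complex.norm_real, Real.norm_eq_abs, abs_of_nonneg ht.1]
      have := norm_nonneg w
      nlinarith [ht.2]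
    constructor
    · rw [Complex.add_im, Complex.ofReal_im, zero_add]
      exact (Complex.abs_im_le_norm _).trans (hn.trans hα)
    · rw [Complex.add_re, Complex.ofReal_re]
      have h1 := Complex.abs_re_le_norm ((t : ℂ) * w)
      have h2 := abs_add_le r ((t : ℂ) * w).re
      linarith
  have hU2 : ∀ t ∈ Icc (0 : ℝ) 1, k ≤ (U2 e ((r : ℂ) + t * w)).re := by
    intro t ht
    obtain ⟨h1, h2⟩ := hseg t ht
    refine hk.trans (le_trans ?_ (U2_re_ge he0 he1 h1))
    have h3 := es_wt_ge ((r : ℂ) + t * w).re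
    have h4 : Real.exp (-M) ≤ Real.exp (-|((r : ℂ) + t * w).re|) :=
      Real.exp_le_exp.mpr (by linarith)
    linarith
  -- the real function
  let g : ℝ → ℝ := fun t => ((starRingEnd ℂ) w * U1 e ((r : ℂ) + t * w)).re
  have hg : ∀ t ∈ Icc (0 : ℝ) 1, HasDerivAt g (((starRingEnd ℂ) w * (U2 e ((r : ℂ) + t * w) * w)).re) t := by
    intro t ht
    have h1 : |((r : ℂ) + t * w).im| < Real.pi / 2 := by
      have := (hseg t ht).1
      have := Real.pi_gt_three
      linarith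
    have h2 : HasDerivAt (fun s : ℝ => (r : ℂ) + (s : ℂ) * w) w t := by
      have h3 : HasDerivAt (fun s : ℝ => (s : ℂ)) 1 t := Complex.ofRealCLM.hasDerivAt
      have h4 := (h3.mul_const w).const_add (r : ℂ)
      simpa using h4
    have h5 : HasDerivAt (fun s : ℝ => U1 e ((r : ℂ) + (s : ℂ) * w))
        (U2 e ((r : ℂ) + t * w) * w) t := by
      have := (hasDerivAt_U1 e h1).comp_of_eq (x := t) (h₂ := U1 e) h2 rfl
      exact this
    have h6 := h5.const_mul ((starRingEnd ℂ) w)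
    exact (Complex.reCLM.hasFDerivAt (x := (starRingEnd ℂ) w * U1 e ((r : ℂ) + t * w))).comp_hasDerivAt t h6
  have hgc : ContinuousOn g (Icc 0 1) := fun t ht => (hg t ht).continuousAt.continuousWithinAt
  obtain ⟨ξ, hξ, hξ2⟩ := exists_hasDerivAt_eq_slope g
    (fun t => (((starRingEnd ℂ) w * (U2 e ((r : ℂ) + t * w) * w)).re)) (zero_lt_one) hgc
    (fun t ht => hg t ⟨ht.1.le, ht.2.le⟩)
  have hval : (((starRingEnd ℂ) w * (U2 e ((r : ℂ) + ξ * w) * w)).re) =
      ‖w‖ ^ 2 * (U2 e ((r : ℂ) + ξ * w)).re := by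
    have : (starRingEnd ℂ) w * (U2 e ((r : ℂ) + ξ * w) * w) =
        ((‖w‖ ^ 2 : ℝ) : ℂ) * U2 e ((r : ℂ) + ξ * w) := by
      have h1 : (starRingEnd ℂ) w * w = ((‖w‖ ^ 2 : ℝ) : ℂ) := by
        rw [Complex.conj_mul']
        push_cast
        rfl
      calc (starRingEnd ℂ) w * (U2 e ((r : ℂ) + ξ * w) * w)
          = ((starRingEnd ℂ) w * w) * U2 e ((r : ℂ) + ξ * w) := by ring
        _ = _ := by rw [h1]
    rw [this, Complex.re_ofReal_mul]
  have hdiff : g 1 - g 0 = ‖w‖ ^ 2 * (U2 e ((r : ℂ) + ξ * w)).re := by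
    rw [← hval, hξ2]; ring
  have hg10 : g 1 - g 0 = ((starRingEnd ℂ) w * (U1 e z - U1 e r)).re := by
    simp only [g]
    have e1 : (r : ℂ) + ((1 : ℝ) : ℂ) * w = z := by rw [hw]; push_cast; ring
    have e0 : (r : ℂ) + ((0 : ℝ) : ℂ) * w = r := by push_cast; ring
    rw [e1, e0, ← Complex.sub_re, mul_sub]
  have hle : ((starRingEnd ℂ) w * (U1 e z - U1 e r)).re ≤ ‖w‖ * ‖U1 e z - U1 e r‖ := by
    refine (Complex.re_le_norm _).trans ?_
    rw [norm_mul, RCLike.norm_conj]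
  have hk2 := hU2 ξ ⟨hξ.1.le, hξ.2.le⟩
  rcases eq_or_lt_of_le (norm_nonneg w) with hw0 | hw0
  · rw [← hw0, mul_zero]; exact norm_nonneg _
  · have h5 : ‖w‖ ^ 2 * k ≤ ‖w‖ * ‖U1 e z - U1 e r‖ := by
      have : ‖w‖ ^ 2 * k ≤ ‖w‖ ^ 2 * (U2 e ((r : ℂ) + ξ * w)).re :=
        mul_le_mul_of_nonneg_left hk2 (by positivity)
      linarith
    have h6 : ‖w‖ * (k * ‖w‖) ≤ ‖w‖ * ‖U1 e z - U1 e r‖ := by
      calc ‖w‖ * (k * ‖w‖) = ‖w‖ ^ 2 * k := by ring
        _ ≤ _ := h5
    exact le_of_mul_le_mul_left h6 hw0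

/-- Existence of saddle points. -/
theorem exists_saddle {η : ℝ} (h0 : 0 < η) (h1 : η < 1 / 2) :
    ∃ Λ c : ℝ, 0 < Λ ∧ 0 < c ∧ c ≤ η ∧ ∀ e : ℝ, 0 ≤ e → e ≤ 1 / 1000 → ∀ x₀ : ℝ, η ≤ x₀ →
      x₀ ≤ 1 - η → ∀ α : ℝ, 0 < α → α ≤ 1 / 10 → ∀ x : ℂ, ‖x - x₀‖ < c * α →
      ∃ ρ : ℂ, |ρ.im| ≤ α ∧ |ρ.re| ≤ Λ ∧ U1 e ρ = x := by
  have hL : 0 < Real.log (2 / η) := Real.log_pos (by rw [lt_div_iff₀ h0]; linarith)
  obtain ⟨M, hM⟩ : ∃ M : ℝ, M = Real.log (2 / η) + 1 := ⟨_, rfl⟩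
  obtain ⟨k, hk⟩ : ∃ k : ℝ, k = Real.exp (-M) / 8 := ⟨_, rfl⟩
  have hk0 : 0 < k := by rw [hk]; positivity
  refine ⟨M, min (k / 2) η, by linarith, lt_min (by linarith) h0, min_le_right _ _, ?_⟩
  intro e he0 he1 x₀ hx0 hx1 α hα0 hα1 x hx
  obtain ⟨r, hr, hru⟩ := es_real h0 h1 he0 he1 hx0 hx1
  have hlow : ∀ z : ℂ, ‖z - r‖ ≤ α → k * ‖z - r‖ ≤ ‖U1 e z - U1 e r‖ := fun z hz =>
    es_lower (M := M) he0 he1 hα1 (by linarith) hk.le hz
  have hd : DifferentiableOn ℂ (U1 e) (Metric.closedBall (r : ℂ) α) := by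
    intro z hz
    rw [Metric.mem_closedBall, dist_eq_norm] at hz
    have h3 : |z.im| ≤ α := by
      have := Complex.abs_im_le_norm (z - r)
      rw [Complex.sub_im, Complex.ofReal_im, sub_zero] at this
      linarith
    have h4 := Real.pi_gt_three
    exact (hasDerivAt_U1 e (by linarith)).differentiableAt.differentiableWithinAt
  have hdc : DiffContOnCl ℂ (U1 e) (Metric.ball (r : ℂ) α) := by
    refine DifferentiableOn.diffContOnCl ?_
    rw [closure_ball _ hα0.ne']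
    exact hd
  have hsub := hdc.ball_subset_image_closedBall (ε := k * α) hα0
    (by
      intro z hz
      rw [mem_sphere_iff_norm] at hz
      have := hlow z hz.le
      rw [hz] at this
      exact this)
    (by
      have h5 : ∀ᶠ z in 𝓝[≠] (r : ℂ), U1 e z ≠ U1 e r := by
        rw [eventually_nhdsWithin_iff]
        filter_upwards [Metric.closedBall_mem_nhds (r : ℂ) hα0] with z hz hzr heq
        rw [Metric.mem_closedBall, dist_eq_norm] at hz
        have h6 := hlow z hz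
        rw [heq, sub_self, norm_zero] at h6
        have h7 : 0 < ‖z - r‖ := norm_pos_iff.mpr (sub_ne_zero.mpr hzr)
        nlinarith
      exact h5.frequently.filter_mono nhdsWithin_le_nhds)
  have hxm : x ∈ Metric.ball (U1 e (r : ℂ)) (k * α / 2) := by
    rw [Metric.mem_ball, dist_eq_norm, U1_ofReal, hru]
    refine lt_of_lt_of_le hx ?_
    have : min (k / 2) η * α ≤ k / 2 * α := mul_le_mul_of_nonneg_right (min_le_left _ _) hα0.le
    linarith
  obtain ⟨ρ, hρ, hρx⟩ := hsub hxm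
  rw [Metric.mem_closedBall, dist_eq_norm] at hρ
  refine ⟨ρ, ?_, ?_, hρx⟩
  · have := Complex.abs_im_le_norm (ρ - r)
    rw [Complex.sub_im, Complex.ofReal_im, sub_zero] at this
    linarith
  · have h8 := Complex.abs_re_le_norm (ρ - r)
    rw [Complex.sub_re, Complex.ofReal_re] at h8
    have h9 : |ρ.re| ≤ |ρ.re - r| + |r| := by
      have := abs_add_le (ρ.re - r) r
      rwa [sub_add_cancel] at this
    linarith

/-- The bound of the coefficient function near the real axis. -/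
theorem coeff_bound {η Λ₀ : ℝ} (h0 : 0 < η) (h1 : η < 1 / 2) (hΛ : 0 < Λ₀) :
    ∃ C c : ℝ, 0 < C ∧ 0 < c ∧ c ≤ η ∧ ∀ e : ℝ, 0 ≤ e → e ≤ 1 / 1000 → ∀ κ : ℝ, 1 ≤ κ →
      ∀ L : ℝ, |L| ≤ Λ₀ → ∀ x₀ : ℝ, η ≤ x₀ → x₀ ≤ 1 - η → ∀ α : ℝ, 0 < α → α ≤ 1 / 10 →
      ∀ x : ℂ, ‖x - x₀‖ < c * α → 0 < x.re ∧ x.re < 1 ∧ J e κ x ≠ 0 ∧
        ‖Complex.exp (κ * (x * L - uR e L)) / J e κ x‖ ≤
          4 * κ * Real.exp (C * κ * α ^ 2) := by
  obtain ⟨Λ, c, hΛ1, hc, hcη, H⟩ := exists_saddle h0 h1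
  refine ⟨2 * (Λ + Λ₀) + 1, c, by positivity, hc, hcη, ?_⟩
  intro e he0 he1 κ hκ L hL x₀ hx0 hx1 α hα hα1 x hx
  obtain ⟨ρ, hρi, hρr, hρ⟩ := H e he0 he1 x₀ hx0 hx1 α hα hα1 x hx
  have hρi' : |ρ.im| ≤ 1 / 10 := hρi.trans hα1
  have hre : |x.re - x₀| < c * α := by
    have h2 : |(x - x₀).re| ≤ ‖x - x₀‖ := Complex.abs_re_le_norm _
    rw [Complex.sub_re, Complex.ofReal_re] at h2
    exact lt_of_le_of_lt h2 hx
  have hcα : c * α ≤ η * (1 / 10) := mul_le_mul hcη hα1 hα.le h0.le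
  rw [abs_lt] at hre
  have hxr0 : 0 < x.re := by linarith [hre.1]
  have hxr1 : x.re < 1 := by linarith [hre.2]
  have hκ0 : 0 < κ := by linarith
  have hJ := J_lower he0 he1 hκ hρi' (by rw [hρ]; exact hxr0) (by rw [hρ]; exact hxr1)
  rw [hρ] at hJ
  have hJpos : 0 < ‖J e κ x‖ := lt_of_lt_of_le (by positivity) hJ
  refine ⟨hxr0, hxr1, norm_pos_iff.1 hJpos, ?_⟩
  have ht := tangent_le he0 he1 hρi' L
  rw [hρ] at ht
  have hexp : ‖Complex.exp (κ * (x * L - uR e L))‖ = Real.exp (κ * (x.re * L - uR e L)) := by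
    rw [Complex.norm_exp]
    congr 1
    simp [Complex.mul_re, Complex.sub_re]
  rw [norm_div, hexp, div_le_iff₀ hJpos]
  have e1 : (U e ρ + x * (L - ρ)).re = (U e ρ).re + x.re * L - (x * ρ).re := by
    simp only [Complex.add_re, Complex.mul_re, Complex.sub_re, Complex.sub_im, Complex.ofReal_re,
      Complex.ofReal_im]
    ring
  have e2 : (x * ρ - U e ρ).re = (x * ρ).re - (U e ρ).re := Complex.sub_re _ _
  rw [e1] at ht
  have h3 : |L - ρ.re| ≤ Λ₀ + Λ := by
    calc |L - ρ.re| ≤ |L| + |ρ.re| := abs_sub _ _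
      _ ≤ Λ₀ + Λ := add_le_add hL hρr
  have h4 : ρ.im ^ 2 ≤ α ^ 2 := by
    rw [← sq_abs ρ.im]
    exact pow_le_pow_left₀ (abs_nonneg _) hρi 2
  have h5 : (2 * |L - ρ.re| + 1) * ρ.im ^ 2 ≤ (2 * (Λ + Λ₀) + 1) * α ^ 2 := by
    apply mul_le_mul _ h4 (sq_nonneg _) (by positivity)
    linarith
  have h6 : κ * (x.re * L - uR e L) ≤
      (2 * (Λ + Λ₀) + 1) * κ * α ^ 2 + κ * (x * ρ - U e ρ).re := by
    rw [e2]
    have h7 : x.re * L - uR e L ≤ (2 * (Λ + Λ₀) + 1) * α ^ 2 + ((x * ρ).re - (U e ρ).re) := by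
      linarith
    have h8 := mul_le_mul_of_nonneg_left h7 hκ0.le
    linarith
  calc Real.exp (κ * (x.re * L - uR e L))
      ≤ Real.exp ((2 * (Λ + Λ₀) + 1) * κ * α ^ 2 + κ * (x * ρ - U e ρ).re) :=
        Real.exp_le_exp.2 h6
    _ = Real.exp ((2 * (Λ + Λ₀) + 1) * κ * α ^ 2) * Real.exp (κ * (x * ρ - U e ρ).re) :=
        Real.exp_add _ _
    _ = 4 * κ * Real.exp ((2 * (Λ + Λ₀) + 1) * κ * α ^ 2) *
          (1 / (4 * κ) * Real.exp (κ * (x * ρ - U e ρ).re)) := by
        field_simp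
    _ ≤ _ := by
        apply mul_le_mul_of_nonneg_left hJ
        positivity

/-- The backward difference operator. -/
def D (f : ℂ → ℂ) (z : ℂ) : ℂ := f z - f (z - 1)

theorem iterate_D_bound_aux {f : ℂ → ℂ} {m : ℂ} {M R q : ℝ} (hq : 1 < q)
    (hf : DifferentiableOn ℂ f (Metric.ball m R))
    (hM : ∀ z ∈ Metric.ball m R, ‖f z‖ ≤ M) : ∀ k : ℕ, (k : ℝ) * q < R →
    DifferentiableOn ℂ (D^[k] f) (Metric.ball m (R - k * q)) ∧
      ∀ z ∈ Metric.ball m (R - k * q), ‖(D^[k] f) z‖ ≤ (2 / q) ^ k * M := by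
  intro k
  have hq0 : 0 < q := by linarith
  induction k with
  | zero =>
    intro _
    have e : R - ((0 : ℕ) : ℝ) * q = R := by simp
    rw [e]
    refine ⟨hf, ?_⟩
    intro z hz
    rw [pow_zero, one_mul]
    exact hM z hz
  | succ k ih =>
    intro hk
    push_cast at hk
    have hk' : (k : ℝ) * q < R := by linarith
    obtain ⟨ih1, ih2⟩ := ih hk'
    rw [Function.iterate_succ_apply']
    set g : ℂ → ℂ := D^[k] f with hg
    have hsub : ∀ z ∈ Metric.ball m (R - ((k + 1 : ℕ) : ℝ) * q),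
        Metric.ball z q ⊆ Metric.ball m (R - k * q) := by
      intro z hz
      apply Metric.ball_subset_ball'
      rw [Metric.mem_ball] at hz
      push_cast at hz
      linarith
    have hz1 : ∀ z : ℂ, z - 1 ∈ Metric.ball z q := by
      intro z
      rw [Metric.mem_ball, dist_eq_norm]
      simpa using hq
    refine ⟨?_, ?_⟩
    · intro z hz
      have h1 : DifferentiableAt ℂ g z :=
        (ih1 z (hsub z hz (Metric.mem_ball_self hq0))).differentiableAt
          (Metric.isOpen_ball.mem_nhds (hsub z hz (Metric.mem_ball_self hq0)))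
      have h2 : DifferentiableAt ℂ g (z - 1) :=
        (ih1 _ (hsub z hz (hz1 z))).differentiableAt
          (Metric.isOpen_ball.mem_nhds (hsub z hz (hz1 z)))
      have h3 : DifferentiableAt ℂ (fun w => g (w - 1)) z :=
        DifferentiableAt.comp (f := fun w : ℂ => w - 1) z h2
          ((differentiableAt_id).sub_const 1)
      exact (h1.sub h3).differentiableWithinAt
    · intro z hz
      show ‖g z - g (z - 1)‖ ≤ _
      have hB0 : 0 ≤ (2 / q) ^ k * M :=
        le_trans (norm_nonneg _) (ih2 z (hsub z hz (Metric.mem_ball_self hq0)))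
      have hmaps : Set.MapsTo g (Metric.ball z q)
          (Metric.closedBall (g z) (2 * ((2 / q) ^ k * M))) := by
        intro w hw
        rw [Metric.mem_closedBall, dist_eq_norm]
        have h1 := ih2 w (hsub z hz hw)
        have h2 := ih2 z (hsub z hz (Metric.mem_ball_self hq0))
        have h3 := norm_sub_le (g w) (g z)
        linarith
      have h5 := Complex.dist_le_div_mul_dist_of_mapsTo_ball (ih1.mono (hsub z hz)) hmaps (hz1 z)
      rw [dist_eq_norm, dist_eq_norm] at h5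
      have h6 : ‖z - 1 - z‖ = 1 := by simp
      rw [h6, mul_one, norm_sub_rev] at h5
      refine h5.trans (le_of_eq ?_)
      rw [pow_succ]
      field_simp

theorem iterate_D_bound {f : ℂ → ℂ} {m : ℂ} {M R q : ℝ} {n : ℕ} (hq : 1 < q)
    (hn : n * q < R) (hf : DifferentiableOn ℂ f (Metric.ball m R))
    (hM : ∀ z ∈ Metric.ball m R, ‖f z‖ ≤ M) : ‖(D^[n] f) m‖ ≤ (2 / q) ^ n * M := by
  have hq0 : 0 < q := by linarith
  obtain ⟨_, h⟩ := iterate_D_bound_aux hq hf hM n hn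
  exact h m (Metric.mem_ball_self (by linarith))

/-- The backward difference operator on sequences. -/
def Ds (a : ℤ → ℂ) (m : ℤ) : ℂ := a m - a (m - 1)

theorem sum_Ds {a : ℤ → ℂ} {k n : ℕ} (h : ∀ m : ℤ, m < 0 ∨ (k : ℤ) < m → a m = 0) (ζ : ℂ) :
    (1 - ζ) ^ n * ∑ m ∈ Finset.range (k + 1), a m * ζ ^ m =
      ∑ m ∈ Finset.range (k + n + 1), (Ds^[n] a) m * ζ ^ m := by
  have step : ∀ (a : ℤ → ℂ) (k : ℕ), (∀ m : ℤ, m < 0 ∨ (k : ℤ) < m → a m = 0) →
      (1 - ζ) * ∑ m ∈ Finset.range (k + 1), a m * ζ ^ m =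
      ∑ m ∈ Finset.range (k + 1 + 1), (Ds a) m * ζ ^ m := by
    intro a k h
    have e1 : ∑ m ∈ Finset.range (k + 1 + 1), (Ds a) m * ζ ^ m =
        ∑ m ∈ Finset.range (k + 1 + 1), a m * ζ ^ m -
        ∑ m ∈ Finset.range (k + 1 + 1), a ((m : ℤ) - 1) * ζ ^ m := by
      rw [← Finset.sum_sub_distrib]
      apply Finset.sum_congr rfl
      intro m _
      simp only [Ds]
      ring
    have e2 : ∑ m ∈ Finset.range (k + 1 + 1), a m * ζ ^ m =
        ∑ m ∈ Finset.range (k + 1), a m * ζ ^ m := by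
      rw [Finset.sum_range_succ, h _ (Or.inr (by push_cast; omega))]
      ring
    have e3 : ∑ m ∈ Finset.range (k + 1 + 1), a ((m : ℤ) - 1) * ζ ^ m =
        ζ * ∑ m ∈ Finset.range (k + 1), a m * ζ ^ m := by
      rw [Finset.sum_range_succ', h _ (Or.inl (by simp)), Finset.mul_sum, zero_mul,
        add_zero]
      apply Finset.sum_congr rfl
      intro m _
      have : (((m + 1 : ℕ) : ℤ) - 1) = m := by push_cast; ring
      rw [this]
      ring
    rw [e1, e2, e3]
    ring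
  induction n generalizing a k with
  | zero => simp
  | succ n ih =>
    rw [pow_succ, mul_assoc, step a k h]
    have h' : ∀ m : ℤ, m < 0 ∨ ((k + 1 : ℕ) : ℤ) < m → Ds a m = 0 := by
      intro m hm
      simp only [Ds]
      rw [h m (by push_cast at hm; omega), h (m - 1) (by push_cast at hm; omega), sub_zero]
    rw [ih h', Function.iterate_succ_apply]
    congr 2
    ring

theorem norm_iterate_Ds_le {a : ℤ → ℂ} {n : ℕ} {m : ℤ} {M : ℝ}
    (h : ∀ j : ℤ, m - n ≤ j → j ≤ m → ‖a j‖ ≤ M) : ‖(Ds^[n] a) m‖ ≤ 2 ^ n * M := by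
  induction n generalizing a M with
  | zero => simpa using h m (by simp) le_rfl
  | succ n ih =>
    rw [Function.iterate_succ_apply]
    have h2 : ∀ j : ℤ, m - n ≤ j → j ≤ m → ‖Ds a j‖ ≤ 2 * M := by
      intro j h1 h2
      have e1 := h j (by push_cast; omega) h2
      have e2 := h (j - 1) (by push_cast; omega) (by omega)
      simp only [Ds]
      calc ‖a j - a (j - 1)‖ ≤ ‖a j‖ + ‖a (j - 1)‖ := norm_sub_le _ _
        _ ≤ 2 * M := by linarith
    have h3 := ih h2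
    calc _ ≤ 2 ^ n * (2 * M) := h3
      _ = 2 ^ (n + 1) * M := by ring

theorem iterate_Ds_eq {a : ℤ → ℂ} {f : ℂ → ℂ} {n : ℕ} {m : ℤ}
    (h : ∀ j : ℤ, m - n ≤ j → j ≤ m → a j = f j) : (Ds^[n] a) m = (D^[n] f) m := by
  induction n generalizing m with
  | zero => simpa using h m (by simp) le_rfl
  | succ n ih =>
    rw [Function.iterate_succ_apply', Function.iterate_succ_apply']
    simp only [Ds, D]
    rw [ih (fun j h1 h2 => h j (by push_cast; omega) h2),
      ih (fun j h1 h2 => h j (by push_cast; omega) (by omega))]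
    push_cast
    rfl

theorem uR_continuous (e : ℝ) : Continuous (uR e) :=
  continuous_iff_continuousAt.mpr fun ρ => (hasDerivAt_uR e ρ).continuousAt

theorem uR_ge_zero {e : ℝ} (he0 : 0 ≤ e) (r : ℝ) : 0 ≤ uR e r := by
  unfold uR
  have h1 : 0 ≤ Real.log (1 + Real.exp r) := Real.log_nonneg (by linarith [Real.exp_pos r])
  have h2 := Real.exp_pos (-Real.exp (-r))
  positivity

theorem uR_ge_self {e : ℝ} (he0 : 0 ≤ e) (r : ℝ) : r ≤ uR e r := by
  unfold uR
  have h1 : r ≤ Real.log (1 + Real.exp r) := by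
    rw [Real.le_log_iff_exp_le (by linarith [Real.exp_pos r])]
    linarith
  have h2 := Real.exp_pos (-Real.exp (-r))
  have h3 : 0 ≤ e * Real.exp (-Real.exp (-r)) := mul_nonneg he0 h2.le
  linarith

theorem integrable_JR {e κ : ℝ} (he0 : 0 ≤ e) (hκ : 1 ≤ κ) {x : ℝ}
    (h0 : 0 < x) (h1 : x < 1) : Integrable (fun ρ : ℝ => Real.exp (κ * (x * ρ - uR e ρ))) := by
  have hκ0 : 0 < κ := by linarith
  have hc : Continuous (fun ρ : ℝ => Real.exp (κ * (x * ρ - uR e ρ))) := by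
    have := uR_continuous e
    fun_prop
  have hI : IntegrableOn (fun ρ : ℝ => Real.exp (κ * (x * ρ - uR e ρ))) (Iic 0) := by
    refine Integrable.mono' (integrableOn_exp_mul_Iic (a := κ * x) (by positivity) 0) hc.aestronglyMeasurable.restrict ?_
    filter_upwards with r
    rw [Real.norm_eq_abs, abs_of_pos (Real.exp_pos _)]
    apply Real.exp_le_exp.mpr
    have := uR_ge_zero he0 r
    nlinarith
  have hJ : IntegrableOn (fun ρ : ℝ => Real.exp (κ * (x * ρ - uR e ρ))) (Ioi 0) := by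
    refine Integrable.mono' (integrableOn_exp_mul_Ioi (a := κ * (x - 1)) (by nlinarith) 0) hc.aestronglyMeasurable.restrict ?_
    filter_upwards with r
    rw [Real.norm_eq_abs, abs_of_pos (Real.exp_pos _)]
    apply Real.exp_le_exp.mpr
    have := uR_ge_self he0 r
    nlinarith
  have := hI.union hJ
  rwa [Iic_union_Ioi, integrableOn_univ] at this

/-- A crude lower bound for the real moment integrals. -/
theorem JR_lower {e κ : ℝ} (he0 : 0 ≤ e) (he1 : e ≤ 1 / 1000) (hκ : 1 ≤ κ) {x : ℝ}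
    (h0 : 0 < x) (h1 : x < 1) (ρ : ℝ) :
    1 / (2 * κ) * Real.exp (κ * (x * ρ - uR e ρ)) ≤ JR e κ x := by
  have hκ0 : 0 < κ := by linarith
  have hint := integrable_JR he0 hκ h0 h1
  have hlow : ∀ r ∈ Icc (ρ - 1 / κ) (ρ + 1 / κ),
      Real.exp (κ * (x * ρ - uR e ρ) - 1) ≤ Real.exp (κ * (x * r - uR e r)) := by
    intro r hr
    apply Real.exp_le_exp.mpr
    have hk : κ * (1 / κ) = 1 := by field_simp
    have hmain : x * ρ - uR e ρ - 1 / κ ≤ x * r - uR e r := by
      rcases le_total ρ r with h | h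
      · have h2 : ρ - uR e ρ ≤ r - uR e r := sub_uR_monotone he0 he1 h
        have h3 := hr.2
        nlinarith
      · have h2 : uR e r ≤ uR e ρ := uR_monotone he0 h
        have h3 := hr.1
        nlinarith
    have := mul_le_mul_of_nonneg_left hmain hκ0.le
    nlinarith
  have h2 := setIntegral_ge_of_const_le_real (μ := volume) (s := Icc (ρ - 1 / κ) (ρ + 1 / κ)) measurableSet_Icc
    (by rw [Real.volume_Icc]; exact ENNReal.ofReal_ne_top) hlow hint.integrableOn
  have h3 : ∫ r in Icc (ρ - 1 / κ) (ρ + 1 / κ), Real.exp (κ * (x * r - uR e r)) ≤ JR e κ x :=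
    setIntegral_le_integral hint (Filter.Eventually.of_forall fun r => (Real.exp_pos _).le)
  refine le_trans ?_ (h2.trans h3)
  have h4 : (volume : Measure ℝ).real (Icc (ρ - 1 / κ) (ρ + 1 / κ)) = 2 / κ := by
    rw [Real.volume_real_Icc_of_le (by have : 0 < 1 / κ := by positivity
                                       linarith)]
    ring
  rw [h4, Real.exp_sub]
  have h5 : Real.exp 1 < 4 := by linarith [Real.exp_one_lt_d9]
  have h6 := Real.exp_pos (κ * (x * ρ - uR e ρ))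
  have h7 := Real.exp_pos 1
  have h8 : 1 / (2 * κ) * Real.exp (κ * (x * ρ - uR e ρ)) = (Real.exp (κ * (x * ρ - uR e ρ)) / κ) * (1 / 2) := by
    field_simp
  have h9 : Real.exp (κ * (x * ρ - uR e ρ)) / Real.exp 1 * (2 / κ) = (Real.exp (κ * (x * ρ - uR e ρ)) / κ) * (2 / Real.exp 1) := by
    field_simp
  rw [h8, h9]
  apply mul_le_mul_of_nonneg_left _ (by positivity)
  rw [div_le_div_iff₀ (by norm_num) h7]
  linarith

theorem ends_fin {e : ℝ} (he0 : 0 ≤ e) (he1 : e ≤ 1 / 1000) {κ : ℝ} (hκ : 1 ≤ κ) {x : ℝ}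
    (h0 : 0 < x) (h1 : x < 1) (L ρ c : ℝ)
    (h : (x * L - uR e L) - (x * ρ - uR e ρ) ≤ -c) :
    Real.exp (κ * (x * L - uR e L)) / JR e κ x ≤ 2 * κ * Real.exp (-c * κ) := by
  have hκ0 : 0 < κ := by linarith
  have hJ := JR_lower he0 he1 hκ h0 h1 ρ
  have hJ0 : 0 < JR e κ x := lt_of_lt_of_le (by positivity) hJ
  rw [div_le_iff₀ hJ0]
  have h2 : Real.exp (κ * (x * L - uR e L)) ≤
      Real.exp (-c * κ) * Real.exp (κ * (x * ρ - uR e ρ)) := by
    rw [← Real.exp_add]
    apply Real.exp_le_exp.mpr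
    nlinarith
  refine h2.trans ?_
  have h3 : Real.exp (-c * κ) * Real.exp (κ * (x * ρ - uR e ρ)) =
      2 * κ * Real.exp (-c * κ) * (1 / (2 * κ) * Real.exp (κ * (x * ρ - uR e ρ))) := by
    field_simp
  rw [h3]
  exact mul_le_mul_of_nonneg_left hJ (by positivity)

/-- The coefficients near the two ends are exponentially small. -/
theorem ends_bound {Λ₀ : ℝ} (hΛ : 0 < Λ₀) :
    ∃ η c : ℝ, 0 < η ∧ η < 1 / 2 ∧ 0 < c ∧ ∀ e : ℝ, 0 ≤ e → e ≤ 1 / 1000 → ∀ κ : ℝ, 1 ≤ κ →
      ∀ L : ℝ, |L| ≤ Λ₀ → ∀ x : ℝ, 0 < x → x < 1 → (x ≤ η ∨ 1 - η ≤ x) →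
      Real.exp (κ * (x * L - uR e L)) / JR e κ x ≤ 2 * κ * Real.exp (-c * κ) := by
  obtain ⟨c1, hc1⟩ : ∃ c1, c1 = 1 / (1 + Real.exp (Λ₀ + 1)) := ⟨_, rfl⟩
  obtain ⟨c2, hc2⟩ : ∃ c2, c2 = Real.exp (-(Λ₀ + 1)) / 4 := ⟨_, rfl⟩
  have hc10 : 0 < c1 := by rw [hc1]; positivity
  have hc20 : 0 < c2 := by rw [hc2]; positivity
  obtain ⟨m, hm⟩ : ∃ m, m = min c1 c2 := ⟨_, rfl⟩
  have hm0 : 0 < m := by rw [hm]; exact lt_min hc10 hc20
  have hm1 : m ≤ c1 := by rw [hm]; exact min_le_left _ _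
  have hm2 : m ≤ c2 := by rw [hm]; exact min_le_right _ _
  obtain ⟨B, hB⟩ : ∃ B, B = 2 * Λ₀ + 1 := ⟨_, rfl⟩
  have hB0 : 0 < B := by rw [hB]; linarith
  obtain ⟨η, hη⟩ : ∃ η, η = min (1 / 4) (m / (2 * B)) := ⟨_, rfl⟩
  have hη0 : 0 < η := by rw [hη]; exact lt_min (by norm_num) (by positivity)
  have hη1 : η ≤ 1 / 4 := by rw [hη]; exact min_le_left _ _
  have hη2 : η * B ≤ m / 2 := by
    have : η ≤ m / (2 * B) := by rw [hη]; exact min_le_right _ _
    rw [le_div_iff₀ (by positivity)] at this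
    linarith
  refine ⟨η, m / 2, hη0, by linarith, by linarith, ?_⟩
  intro e he0 he1 κ hκ L hL x h0 h1 hx
  obtain ⟨hL1, hL2⟩ := abs_le.mp hL
  rcases hx with hx | hx
  · refine ends_fin he0 he1 hκ h0 h1 L (-Λ₀ - 1) (m / 2) ?_
    obtain ⟨ξ, hξ, hξ2⟩ := exists_hasDerivAt_eq_slope (uR e) (u1R e)
      (show (-Λ₀ - 1 : ℝ) < -Λ₀ by linarith)
      (fun y _ => (hasDerivAt_uR e y).continuousAt.continuousWithinAt)
      (fun y _ => hasDerivAt_uR e y)
    have e1 : (-Λ₀ - (-Λ₀ - 1) : ℝ) = 1 := by ring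
    rw [e1, div_one] at hξ2
    have e2 : c1 ≤ u1R e ξ := by
      refine le_trans ?_ (u1R_ge he0 ξ)
      rw [hc1]
      apply one_div_le_one_div_of_le (by positivity)
      have : Real.exp (-ξ) ≤ Real.exp (Λ₀ + 1) := Real.exp_le_exp.mpr (by linarith [hξ.1])
      linarith
    have e3 : uR e (-Λ₀) ≤ uR e L := uR_monotone he0 hL1
    have e4 : x * (L - (-Λ₀ - 1)) ≤ η * B := by
      apply mul_le_mul hx _ (by linarith) hη0.le
      rw [hB]; linarith
    have e5 : x * L - x * (-Λ₀ - 1) = x * (L - (-Λ₀ - 1)) := by ring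
    linarith
  · refine ends_fin he0 he1 hκ h0 h1 L (Λ₀ + 1) (m / 2) ?_
    obtain ⟨ξ, hξ, hξ2⟩ := exists_hasDerivAt_eq_slope (uR e) (u1R e)
      (show (Λ₀ : ℝ) < Λ₀ + 1 by linarith)
      (fun y _ => (hasDerivAt_uR e y).continuousAt.continuousWithinAt)
      (fun y _ => hasDerivAt_uR e y)
    have e1 : (Λ₀ + 1 - Λ₀ : ℝ) = 1 := by ring
    rw [e1, div_one] at hξ2
    have e2 : c2 ≤ 1 - u1R e ξ := by
      have h3 := u1R_le he0 he1 ξ
      have h4 : Real.exp (-ξ) ≤ 1 := Real.exp_le_one_iff.mpr (by linarith [hξ.1])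
      have h5 : Real.exp (-(Λ₀ + 1)) ≤ Real.exp (-ξ) := Real.exp_le_exp.mpr (by linarith [hξ.2])
      have h6 : Real.exp (-ξ) / 4 ≤ Real.exp (-ξ) / (2 * (1 + Real.exp (-ξ))) := by
        apply div_le_div_of_nonneg_left (Real.exp_pos _).le (by positivity)
        linarith
      rw [hc2]
      linarith
    have e3 : L - uR e L ≤ Λ₀ - uR e Λ₀ := sub_uR_monotone he0 he1 hL2
    have e4 : (1 - x) * (Λ₀ + 1 - L) ≤ η * B := by
      apply mul_le_mul (by linarith) _ (by linarith) hη0.le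
      rw [hB]; linarith
    have e5 : (x * L - uR e L) - (x * (Λ₀ + 1) - uR e (Λ₀ + 1)) =
      (1 - x) * (Λ₀ + 1 - L) - ((Λ₀ + 1 - uR e (Λ₀ + 1)) - (L - uR e L)) := by ring
    rw [e5]
    linarith

theorem ang_coef (e K L x : ℝ) :
    Complex.exp (K * ((x : ℂ) * L - uR e L)) / J e K (x : ℂ) =
      ((Real.exp (K * (x * L - uR e L)) / JR e K x : ℝ) : ℂ) := by
  rw [J_ofReal]
  push_cast
  rfl

theorem ang_J_nonneg (e κ x : ℝ) : 0 ≤ JR e κ x :=
  integral_nonneg fun _ => (Real.exp_pos _).le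

/-- numerical part: the final estimate -/
theorem ang_num {a ν c1 K C2 α T S : ℝ} {k n : ℕ} (ha : 0 < a) (haν : 4 * a ≤ ν) (hac : 4 * a ≤ c1)
    (hν1 : ν ≤ 1) (hK : K = (k : ℝ) + 2) (hn1 : (n : ℝ) ≤ ν * K) (hn2 : ν * K < n + 1)
    (hT : 0 < T) (hTc : ν * Real.log (2 / T) ≤ c1 / 2) (hT2 : 0 < Real.log (2 / T))
    (hα : C2 * α ^ 2 ≤ ν / 2)
    (hS : T ^ n * S ≤ ((k : ℝ) + n + 1) * ((2 / (2 * Real.exp 1 / T)) ^ n *
      (4 * K * Real.exp (C2 * K * α ^ 2)) + 2 ^ n * (2 * K * Real.exp (-c1 * K)))) :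
    S ≤ 64 / a ^ 2 * Real.exp (-a * k) := by
  have hK0 : 0 < K := by rw [hK]; positivity
  have hTn : 0 < T ^ n := pow_pos hT n
  have e0 : 0 < Real.exp 1 := Real.exp_pos 1
  have h1 : (2 / (2 * Real.exp 1 / T)) ^ n = T ^ n * Real.exp (-(n : ℝ)) := by
    have : 2 / (2 * Real.exp 1 / T) = T * Real.exp (-1) := by
      rw [Real.exp_neg]
      field_simp
    rw [this, mul_pow, ← Real.exp_nat_mul]
    congr 2
    ring
  have h2 : (2 : ℝ) ^ n = T ^ n * Real.exp (n * Real.log (2 / T)) := by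
    rw [Real.exp_nat_mul, Real.exp_log (by positivity), ← mul_pow, mul_div_cancel₀ _ hT.ne']
  rw [h1, h2] at hS
  have h3 : S ≤ ((k : ℝ) + n + 1) * (Real.exp (-(n : ℝ)) * (4 * K * Real.exp (C2 * K * α ^ 2)) +
      Real.exp (n * Real.log (2 / T)) * (2 * K * Real.exp (-c1 * K))) := by
    refine le_of_mul_le_mul_left (a := T ^ n) ?_ hTn
    refine hS.trans (le_of_eq ?_)
    ring
  have h4 : Real.exp (-(n : ℝ)) * (4 * K * Real.exp (C2 * K * α ^ 2)) ≤
      4 * Real.exp 1 * K * Real.exp (-2 * a * K) := by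
    have h5 : Real.exp (-(n : ℝ)) * Real.exp (C2 * K * α ^ 2) ≤
        Real.exp 1 * Real.exp (-2 * a * K) := by
      rw [← Real.exp_add, ← Real.exp_add]
      refine Real.exp_le_exp.2 ?_
      nlinarith [mul_le_mul_of_nonneg_right hα hK0.le, mul_le_mul_of_nonneg_right haν hK0.le]
    nlinarith [mul_le_mul_of_nonneg_left h5 (show 0 ≤ 4 * K by positivity)]
  have h6 : Real.exp (n * Real.log (2 / T)) * (2 * K * Real.exp (-c1 * K)) ≤
      2 * K * Real.exp (-2 * a * K) := by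
    have h7 : Real.exp (n * Real.log (2 / T)) * Real.exp (-c1 * K) ≤ Real.exp (-2 * a * K) := by
      rw [← Real.exp_add]
      refine Real.exp_le_exp.2 ?_
      have h8 : n * Real.log (2 / T) ≤ ν * K * Real.log (2 / T) :=
        mul_le_mul_of_nonneg_right hn1 hT2.le
      nlinarith [mul_le_mul_of_nonneg_right hTc hK0.le, mul_le_mul_of_nonneg_right hac hK0.le]
    nlinarith [mul_le_mul_of_nonneg_left h7 (show 0 ≤ 2 * K by positivity)]
  have h9 : (k : ℝ) + n + 1 ≤ 2 * K := by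
    have : ν * K ≤ 1 * K := mul_le_mul_of_nonneg_right hν1 hK0.le
    linarith
  have hE := Real.exp_pos (-2 * a * K)
  have h10 : S ≤ 2 * K * ((4 * Real.exp 1 + 2) * K * Real.exp (-2 * a * K)) := by
    refine h3.trans (mul_le_mul h9 ?_ (by positivity) (by positivity))
    calc _ ≤ 4 * Real.exp 1 * K * Real.exp (-2 * a * K) + 2 * K * Real.exp (-2 * a * K) :=
          add_le_add h4 h6
      _ = _ := by ring
  have h11 : 4 * Real.exp 1 + 2 ≤ 16 := by linarith [Real.exp_one_lt_d9]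
  have h12 : Real.exp (-2 * a * K) = Real.exp (-(a * K)) * Real.exp (-(a * K)) := by
    rw [← Real.exp_add]
    congr 1
    ring
  have h13 : K ^ 2 * Real.exp (-(a * K)) ≤ 2 / a ^ 2 := by
    have h14 := Real.quadratic_le_exp_of_nonneg (show 0 ≤ a * K by positivity)
    rw [Real.exp_neg, ← div_eq_mul_inv, div_le_div_iff₀ (Real.exp_pos _) (by positivity)]
    nlinarith [show 0 ≤ a * K by positivity]
  have h15 : Real.exp (-(a * K)) ≤ Real.exp (-a * k) := by
    refine Real.exp_le_exp.2 ?_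
    rw [hK]
    nlinarith
  have hE2 := Real.exp_pos (-(a * K))
  calc S ≤ 2 * K * ((4 * Real.exp 1 + 2) * K * Real.exp (-2 * a * K)) := h10
    _ ≤ 2 * K * (16 * K * Real.exp (-2 * a * K)) := by
        refine mul_le_mul_of_nonneg_left ?_ (by positivity)
        exact mul_le_mul_of_nonneg_right (mul_le_mul_of_nonneg_right h11 hK0.le) hE.le
    _ = 32 * (K ^ 2 * Real.exp (-(a * K))) * Real.exp (-(a * K)) := by rw [h12]; ring
    _ ≤ 32 * (2 / a ^ 2) * Real.exp (-a * k) := by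
        refine mul_le_mul (mul_le_mul_of_nonneg_left h13 (by norm_num)) h15 hE2.le (by positivity)
    _ = _ := by ring

/-- The angular decay. -/
theorem angular {τ Λ₀ : ℝ} (hτ0 : 0 < τ) (hτ1 : τ < 1) (hΛ : 0 < Λ₀) :
    ∃ C c : ℝ, 0 < C ∧ 0 < c ∧ ∀ e : ℝ, 0 ≤ e → e ≤ 1 / 1000 → ∀ k : ℕ, 1 ≤ k →
      ∀ L : ℝ, |L| ≤ Λ₀ → ∀ ζ : ℂ, ‖ζ‖ = 1 → τ ≤ ‖1 - ζ‖ →
      ‖∑ m ∈ Finset.range (k + 1),
        ((Real.exp (((k : ℝ) + 2) * (((m : ℝ) + 1) / ((k : ℝ) + 2) * L - uR e L)) /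
          JR e ((k : ℝ) + 2) (((m : ℝ) + 1) / ((k : ℝ) + 2)) : ℝ) : ℂ) * ζ ^ m‖ ≤
        C * Real.exp (-c * k) := by
  obtain ⟨η, c1, hη0, hη1, hc1, hends⟩ := ends_bound hΛ
  obtain ⟨C2, cs, hC2, hcs, hcsη, hco⟩ := coeff_bound (η := η / 2) (by linarith) (by linarith) hΛ
  have e1 : 2 ≤ Real.exp 1 := by linarith [Real.add_one_le_exp (1 : ℝ)]
  obtain ⟨q, hq⟩ : ∃ q : ℝ, q = 2 * Real.exp 1 / τ := ⟨_, rfl⟩
  have hq1 : 1 < q := by
    rw [hq, one_lt_div hτ0]
    linarith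
  have hq0 : 0 < q := by linarith
  have hlog : 0 < Real.log (2 / τ) := Real.log_pos (by rw [one_lt_div hτ0]; linarith)
  obtain ⟨α, hα⟩ : ∃ α : ℝ, α = min (1 / 10) (min (cs / (4 * q * C2))
    (q * c1 / (cs * Real.log (2 / τ)))) := ⟨_, rfl⟩
  have hα0 : 0 < α := by
    rw [hα]
    refine lt_min (by norm_num) (lt_min (by positivity) (by positivity))
  have hα1 : α ≤ 1 / 10 := by rw [hα]; exact min_le_left _ _
  have hα2 : α ≤ cs / (4 * q * C2) := by
    rw [hα]; exact (min_le_right _ _).trans (min_le_left _ _)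
  have hα3 : α ≤ q * c1 / (cs * Real.log (2 / τ)) := by
    rw [hα]; exact (min_le_right _ _).trans (min_le_right _ _)
  rw [le_div_iff₀ (by positivity)] at hα2 hα3
  obtain ⟨ν, hν⟩ : ∃ ν : ℝ, ν = cs * α / (2 * q) := ⟨_, rfl⟩
  have hνq : ν * q = cs * α / 2 := by
    rw [hν]
    field_simp
  have hν0 : 0 < ν := by rw [hν]; positivity
  have hνcs : ν ≤ cs := by
    have h1 : ν ≤ ν * q := le_mul_of_one_le_right hν0.le hq1.le
    rw [hνq] at h1
    nlinarith
  have hνη : ν ≤ η / 2 := hνcs.trans hcsη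
  have hν2 : C2 * α ^ 2 ≤ ν / 2 := by
    rw [hν, div_div, le_div_iff₀ (by positivity)]
    nlinarith [mul_le_mul_of_nonneg_left hα2 hα0.le]
  have hν3 : ν * Real.log (2 / τ) ≤ c1 / 2 := by
    rw [hν, div_mul_eq_mul_div, div_le_iff₀ (by positivity)]
    nlinarith
  obtain ⟨a, ha⟩ : ∃ a : ℝ, a = min ν c1 / 4 := ⟨_, rfl⟩
  have ha0 : 0 < a := by rw [ha]; positivity
  have haν : 4 * a ≤ ν := by rw [ha]; linarith [min_le_left ν c1]
  have hac : 4 * a ≤ c1 := by rw [ha]; linarith [min_le_right ν c1]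
  refine ⟨64 / a ^ 2, a, by positivity, ha0, ?_⟩
  intro e he0 he1 k hk L hL ζ hζ hτζ
  obtain ⟨K, hK⟩ : ∃ K : ℝ, K = (k : ℝ) + 2 := ⟨_, rfl⟩
  rw [← hK]
  have hK0 : 0 < K := by rw [hK]; positivity
  have hK1 : 1 ≤ K := by rw [hK]; linarith [(Nat.cast_nonneg k : (0 : ℝ) ≤ k)]
  obtain ⟨n, hn⟩ : ∃ n : ℕ, n = ⌊ν * K⌋₊ := ⟨_, rfl⟩
  have hn1 : (n : ℝ) ≤ ν * K := by rw [hn]; exact Nat.floor_le (by positivity)
  have hn2 : ν * K < n + 1 := by rw [hn]; exact Nat.lt_floor_add_one _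
  let f : ℂ → ℂ := fun s => Complex.exp (K * ((s + 1) / K * L - uR e L)) / J e K ((s + 1) / K)
  let A : ℤ → ℂ := fun j => if 0 ≤ j ∧ j ≤ (k : ℤ) then f j else 0
  have hfR : ∀ x : ℝ, f x = ((Real.exp (K * ((x + 1) / K * L - uR e L)) / JR e K ((x + 1) / K) : ℝ) : ℂ) := by
    intro x
    rw [← ang_coef]
    change Complex.exp (K * (((x : ℂ) + 1) / K * L - uR e L)) / J e K (((x : ℂ) + 1) / K) = _
    have : (((x : ℂ) + 1) / K) = (((x + 1) / K : ℝ) : ℂ) := by push_cast; rfl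
    rw [this]
  have hfZ : ∀ j : ℤ, f (j : ℂ) = ((Real.exp (K * (((j : ℝ) + 1) / K * L - uR e L)) /
      JR e K (((j : ℝ) + 1) / K) : ℝ) : ℂ) := by
    intro j
    have := hfR (j : ℝ)
    rw [Complex.ofReal_intCast] at this
    exact this
  -- the bound of the single term
  have hterm : ∀ m : ℤ, ‖(Ds^[n] A) m‖ ≤
      (2 / q) ^ n * (4 * K * Real.exp (C2 * K * α ^ 2)) + 2 ^ n * (2 * K * Real.exp (-c1 * K)) := by
    intro m
    have hp1 : 0 ≤ (2 / q) ^ n * (4 * K * Real.exp (C2 * K * α ^ 2)) := by positivity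
    have hp2 : 0 ≤ 2 ^ n * (2 * K * Real.exp (-c1 * K)) := by positivity
    by_cases hcase : ∀ j : ℤ, m - n ≤ j → j ≤ m →
        η / 2 ≤ ((j : ℝ) + 1) / K ∧ ((j : ℝ) + 1) / K ≤ 1 - η / 2
    · -- case (i)
      have hA : ∀ j : ℤ, m - n ≤ j → j ≤ m → A j = f j := by
        intro j h1 h2
        obtain ⟨h3, h4⟩ := hcase j h1 h2
        refine if_pos ?_
        have h5 : 0 < ((j : ℝ) + 1) / K := by linarith
        have h6 : ((j : ℝ) + 1) / K < 1 := by linarith
        rw [div_lt_one hK0, hK] at h6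
        have h7 : 0 < (j : ℝ) + 1 := by
          by_contra h
          push Not at h
          exact absurd h5 (not_lt.2 (div_nonpos_of_nonpos_of_nonneg h hK0.le))
        have h8 : (0 : ℝ) < ((j + 1 : ℤ) : ℝ) := by push_cast; exact h7
        have h9 : ((j : ℤ) : ℝ) < (((k : ℤ) + 1 : ℤ) : ℝ) := by push_cast; linarith
        have h10 := Int.cast_pos.1 h8
        have h11 := Int.cast_lt.1 h9
        omega
      rw [iterate_Ds_eq hA]
      obtain ⟨hm1, hm2⟩ := hcase m (by omega) le_rfl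
      have hball : ∀ z ∈ Metric.ball (m : ℂ) (cs * α * K),
          ‖(z + 1) / (K : ℂ) - (((((m : ℝ) + 1) / K : ℝ)) : ℂ)‖ < cs * α := by
        intro z hz
        rw [Metric.mem_ball, dist_eq_norm] at hz
        have h1 : (z + 1) / (K : ℂ) - (((((m : ℝ) + 1) / K : ℝ)) : ℂ) = (z - m) / K := by
          push_cast
          ring
        rw [h1, norm_div, Complex.norm_real, Real.norm_eq_abs, abs_of_pos hK0, div_lt_iff₀ hK0]
        exact hz
      have hb := fun z hz => hco e he0 he1 K hK1 L hL _ hm1 hm2 α hα0 hα1 _ (hball z hz)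
      refine (iterate_D_bound (M := 4 * K * Real.exp (C2 * K * α ^ 2)) (R := cs * α * K) hq1
        ?_ ?_ ?_).trans (le_add_of_nonneg_right hp2)
      · have h1 : (n : ℝ) * q ≤ ν * K * q := mul_le_mul_of_nonneg_right hn1 hq0.le
        have h2 : ν * K * q = cs * α / 2 * K := by rw [← hνq]; ring
        have h3 : 0 < cs * α * K := by positivity
        linarith
      · intro z hz
        obtain ⟨h1, h2, h3, -⟩ := hb z hz
        have hd : DifferentiableAt ℂ (J e K) ((z + 1) / K) := differentiableAt_J he0 he1 hK1 h1 h2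
        have hlin : DifferentiableAt ℂ (fun s : ℂ => (s + 1) / (K : ℂ)) z := by fun_prop
        refine DifferentiableAt.differentiableWithinAt ?_
        have hd2 : DifferentiableAt ℂ (fun s : ℂ => J e K ((s + 1) / (K : ℂ))) z :=
          DifferentiableAt.comp (g := J e K) (f := fun s : ℂ => (s + 1) / (K : ℂ)) z hd hlin
        have hd3 : DifferentiableAt ℂ
            (fun s : ℂ => Complex.exp (K * ((s + 1) / K * L - uR e L))) z := by fun_prop
        exact DifferentiableAt.div hd3 hd2 h3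
      · intro z hz
        exact (hb z hz).2.2.2
    · -- case (ii)
      push Not at hcase
      obtain ⟨j0, hj1, hj2, hj3⟩ := hcase
      refine (norm_iterate_Ds_le (M := 2 * K * Real.exp (-c1 * K)) ?_).trans (le_add_of_nonneg_left hp1)
      intro j h1 h2
      by_cases hj : 0 ≤ j ∧ j ≤ (k : ℤ)
      swap
      · change ‖(if 0 ≤ j ∧ j ≤ (k : ℤ) then f j else 0)‖ ≤ _
        rw [if_neg hj, norm_zero]
        positivity
      change ‖(if 0 ≤ j ∧ j ≤ (k : ℤ) then f j else 0)‖ ≤ _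
      rw [if_pos hj, hfZ, Complex.norm_real, Real.norm_eq_abs,
        abs_of_nonneg (div_nonneg (Real.exp_pos _).le (ang_J_nonneg _ _ _))]
      have hj0 : (0 : ℝ) ≤ j := by exact_mod_cast hj.1
      have hjk : (j : ℝ) ≤ k := by exact_mod_cast hj.2
      have hnK : (n : ℝ) / K ≤ η / 2 := by
        rw [div_le_iff₀ hK0]
        exact hn1.trans (mul_le_mul_of_nonneg_right hνη hK0.le)
      have hd1 : (j : ℝ) ≤ j0 + n := by
        have : j ≤ j0 + n := by omega
        exact_mod_cast this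
      have hd2 : (j0 : ℝ) ≤ j + n := by
        have : j0 ≤ j + n := by omega
        exact_mod_cast this
      refine hends e he0 he1 K hK1 L hL _ (by positivity) ?_ ?_
      · rw [div_lt_one hK0, hK]
        linarith
      · by_cases hl : η / 2 ≤ ((j0 : ℝ) + 1) / K
        · right
          have h3 := hj3 hl
          have h4 : ((j0 : ℝ) + 1) / K ≤ ((j : ℝ) + 1) / K + n / K := by
            rw [← add_div]
            exact div_le_div_of_nonneg_right (by linarith) hK0.le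
          linarith
        · left
          push Not at hl
          have h4 : ((j : ℝ) + 1) / K ≤ ((j0 : ℝ) + 1) / K + n / K := by
            rw [← add_div]
            exact div_le_div_of_nonneg_right (by linarith) hK0.le
          linarith
  -- summation
  have hsum := sum_Ds (a := A) (k := k) (n := n) (fun m hm => if_neg (by omega)) ζ
  have hSA : ∑ m ∈ Finset.range (k + 1),
        ((Real.exp (K * (((m : ℝ) + 1) / K * L - uR e L)) /
          JR e K (((m : ℝ) + 1) / K) : ℝ) : ℂ) * ζ ^ m =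
      ∑ m ∈ Finset.range (k + 1), A m * ζ ^ m := by
    refine Finset.sum_congr rfl fun m hm => ?_
    rw [Finset.mem_range] at hm
    congr 1
    change _ = (if 0 ≤ (m : ℤ) ∧ (m : ℤ) ≤ (k : ℤ) then f ((m : ℤ) : ℂ) else 0)
    rw [if_pos (by omega), hfZ]
    push_cast
    rfl
  rw [hSA]
  have hSb : τ ^ n * ‖∑ m ∈ Finset.range (k + 1), A m * ζ ^ m‖ ≤
      ((k : ℝ) + n + 1) * ((2 / q) ^ n *
      (4 * K * Real.exp (C2 * K * α ^ 2)) + 2 ^ n * (2 * K * Real.exp (-c1 * K))) := by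
    have h1 : τ ^ n * ‖∑ m ∈ Finset.range (k + 1), A m * ζ ^ m‖ ≤
        ‖(1 - ζ) ^ n * ∑ m ∈ Finset.range (k + 1), A m * ζ ^ m‖ := by
      rw [norm_mul, norm_pow]
      exact mul_le_mul_of_nonneg_right (pow_le_pow_left₀ hτ0.le hτζ n) (norm_nonneg _)
    refine h1.trans ?_
    rw [hsum]
    refine (norm_sum_le _ _).trans ?_
    have h2 : ∀ m ∈ Finset.range (k + n + 1), ‖(Ds^[n] A) m * ζ ^ m‖ ≤
        (2 / q) ^ n * (4 * K * Real.exp (C2 * K * α ^ 2)) + 2 ^ n * (2 * K * Real.exp (-c1 * K)) := by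
      intro m _
      rw [norm_mul, norm_pow, hζ, one_pow, mul_one]
      exact hterm m
    refine (Finset.sum_le_card_nsmul _ _ _ h2).trans (le_of_eq ?_)
    rw [Finset.card_range, nsmul_eq_mul]
    push_cast
    ring
  rw [hq] at hSb
  refine ang_num ha0 haν hac ?_ hK hn1 hn2 hτ0 hν3 hlog hν2 hSb
  linarith

end Pool.Agent.Helper206.Berg
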