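import Mathlib

/-!
# Hermitian metrics on `O(1) → ℙ¹` and their Bergman kernels, in homogeneous coordinates

The points of `ℙ¹` are the classes `[v]` of the nonzero vectors `v ∈ ℂ²` modulo nonzero complex
scalars. A (local) holomorphic section of `L^k`, `L = O(1)`, is a holomorphic function `s` on the
corresponding cone in `ℂ² ∖ 0` with `s (c v) = c ^ k s v`.
-/

set_option backward.isDefEq.respectTransparency.types false

open scoped ContDiff ComplexConjugate
open MeasureTheory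

noncomputable section

namespace Pool.Agent.Helper206.Berg

/-- A smooth Hermitian metric `h` on the line bundle `L = O(1)` over `ℙ¹`. It is given by the
smooth positive function `Φ` on `ℂ² ∖ 0` with `Φ (c v) = |c|² Φ v` such that
`h(s, t)([v]) = s v * conj (t v) / Φ v` for (local) sections `s, t` of `L`; that is, `Φ` is the
squared norm of the metric of the dual bundle `O(-1)`, whose fibre over `[v]` is the line `ℂ v`. -/
structure HermitianMetric where
  /-- the squared norm on the dual bundle `O(-1)` -/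
  Φ : ℂ × ℂ → ℝ
  pos : ∀ v, v ≠ 0 → 0 < Φ v
  homog : ∀ (c : ℂ) (v : ℂ × ℂ), c ≠ 0 → v ≠ 0 → Φ (c • v) = ‖c‖ ^ 2 * Φ v
  smooth : ContDiffOn ℝ ∞ Φ {v | v ≠ 0}

/-- `s` is a global holomorphic section of `L^k = O(k)` over `ℙ¹`: a holomorphic function on
`ℂ² ∖ 0`, homogeneous of degree `k` (values at `0` are irrelevant). -/
structure IsSection (k : ℕ) (s : ℂ × ℂ → ℂ) : Prop where
  holomorphic : DifferentiableOn ℂ s {v | v ≠ 0}
  homog : ∀ (c : ℂ) (v : ℂ × ℂ), c ≠ 0 → v ≠ 0 → s (c • v) = c ^ k * s v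

namespace HermitianMetric

variable (h : HermitianMetric)

/-- The Chern curvature form of `h` is positive. In the two standard charts `z ↦ [1 : z]` and
`z ↦ [z : 1]` of `ℙ¹` (with the frames `v ↦ v.1` and `v ↦ v.2` of `L`) the curvature form is
`i ∂∂̄ log Φ(1, z)`, resp. `i ∂∂̄ log Φ(z, 1)`, and positivity means that the Laplacian of this
potential is positive. -/
def IsPositive : Prop :=
  ∀ z : ℂ, 0 < Laplacian.laplacian (fun w : ℂ => Real.log (h.Φ (1, w))) z ∧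
    0 < Laplacian.laplacian (fun w : ℂ => Real.log (h.Φ (w, 1))) z

/-- `h` is real analytic: for every holomorphic frame `e` of `L` over an open subset of `ℙ¹`
(the set of the `[v]`, `v ∈ W`, for the open cone `W`), the function `h(e, e)` is real
analytic. -/
def IsRealAnalytic : Prop :=
  ∀ (W : Set (ℂ × ℂ)) (e : ℂ × ℂ → ℂ), IsOpen W → (∀ v ∈ W, v ≠ 0) →
    (∀ c : ℂ, c ≠ 0 → ∀ v ∈ W, c • v ∈ W) → DifferentiableOn ℂ e W →
    (∀ c : ℂ, c ≠ 0 → ∀ v ∈ W, e (c • v) = c * e v) → (∀ v ∈ W, e v ≠ 0) →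
    AnalyticOnNhd ℝ (fun v => ‖e v‖ ^ 2 / h.Φ v) W

/-- The inner product `⟨s, t⟩ = ∫ h^k(s, t) dV` of sections of `L^k`, where `dV` is the
Fubini–Study volume form `dA(z) / (1 + |z|²)²`, computed in the chart `z ↦ [1 : z]` (which covers
`ℙ¹` up to one point; `dA` is the Lebesgue measure). -/
def inner (k : ℕ) (s t : ℂ × ℂ → ℂ) : ℂ :=
  ∫ z : ℂ, s (1, z) * conj (t (1, z)) / (h.Φ (1, z) : ℂ) ^ k / (1 + (‖z‖ : ℂ) ^ 2) ^ 2

/-- `s` is an orthonormal basis of the space `H⁰(ℙ¹, L^k)` of the holomorphic sections of `L^k`,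
with the inner product above. -/
structure IsOrthonormalBasis (k : ℕ) {ι : Type} [Fintype ι] [DecidableEq ι]
    (s : ι → ℂ × ℂ → ℂ) : Prop where
  isSection : ∀ i, IsSection k (s i)
  orthonormal : ∀ i j, h.inner k (s i) (s j) = if i = j then 1 else 0
  spans : ∀ t, IsSection k t → ∃ c : ι → ℂ, ∀ v, v ≠ 0 → t v = ∑ i, c i * s i v

/-- The pointwise norm `|B(v, w)|`, with respect to `h^k`, of the kernel
`B(v, w) = ∑ j, s j v * conj (s j w)`. -/
def kernelNorm (k : ℕ) {ι : Type} [Fintype ι] (s : ι → ℂ × ℂ → ℂ) (v w : ℂ × ℂ) : ℝ :=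
  ‖∑ i, s i v * conj (s i w)‖ / √(h.Φ v ^ k * h.Φ w ^ k)

end HermitianMetric

/-- The Fubini–Study distance on `ℙ¹` of the points `[v]` and `[w]`, that is the geodesic distance
of the Fubini–Study metric: `cos (dist) = |⟨v, w⟩| / (|v| |w|)`. -/
def fsDist (v w : ℂ × ℂ) : ℝ :=
  Real.arccos (‖v.1 * conj w.1 + v.2 * conj w.2‖ /
    √((‖v.1‖ ^ 2 + ‖v.2‖ ^ 2) * (‖w.1‖ ^ 2 + ‖w.2‖ ^ 2)))

namespace HermitianMetric

variable (h : HermitianMetric)

/-- The Bergman kernels `B_k` of `(L^k, h^k)`, `k ≥ 1`, exist and decay exponentially off the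
diagonal: for every `δ > 0` there are `c₁, c₂ > 0` with `|B_k(v, w)| ≤ c₁ exp (- c₂ k)` for all
`k ≥ 1` and all points `[v], [w]` at distance `> δ`. Here `B_k` is computed from an orthonormal
basis of `H⁰(ℙ¹, L^k)`; the basis is arbitrary. -/
def HasExponentialDecay : Prop :=
  (∀ k : ℕ, 1 ≤ k → ∃ s : Fin (k + 1) → ℂ × ℂ → ℂ, h.IsOrthonormalBasis k s) ∧
  ∀ δ : ℝ, 0 < δ → ∃ c₁ : ℝ, 0 < c₁ ∧ ∃ c₂ : ℝ, 0 < c₂ ∧ ∀ k : ℕ, 1 ≤ k →
    ∀ (ι : Type) [Fintype ι] [DecidableEq ι] (s : ι → ℂ × ℂ → ℂ), h.IsOrthonormalBasis k s →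
    ∀ v w : ℂ × ℂ, v ≠ 0 → w ≠ 0 → δ < fsDist v w →
      h.kernelNorm k s v w ≤ c₁ * Real.exp (-c₂ * k)

end HermitianMetric

end Pool.Agent.Helper206.Berg
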